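import Mathlib

set_option autoImplicit false

/-!
The recursion at the point `0` of a system on the thrice punctured line whose second residue depends
polynomially on a parameter.
-/

namespace Pool.Agent.U927.TP

open Polynomial Finset

variable {F : Type*} [Field F] {r d : ℕ}

/-- The second residue as a polynomial in the parameter. -/
noncomputable def cq (c : Fin d → Matrix (Fin r) (Fin r) F) (x y : Fin r → F) :
    Matrix (Fin r) (Fin r) F[X] :=
  Matrix.of fun i j => (∑ l : Fin d, C (c l i j) * X ^ (l : ℕ)) + C (x i * y j) * X ^ d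

lemma cq_deg (c : Fin d → Matrix (Fin r) (Fin r) F) (x y : Fin r → F) (i j : Fin r) :
    (cq c x y i j).natDegree ≤ d := by
  unfold cq
  rw [Matrix.of_apply]
  refine (natDegree_add_le _ _).trans (max_le ?_ (natDegree_C_mul_X_pow_le _ _))
  refine natDegree_sum_le_of_forall_le _ _ fun l _ => ?_
  exact (natDegree_C_mul_X_pow_le _ _).trans l.2.le

lemma cq_coeff (c : Fin d → Matrix (Fin r) (Fin r) F) (x y : Fin r → F) (i j : Fin r) :
    (cq c x y i j).coeff d = x i * y j := by
  unfold cq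
  rw [Matrix.of_apply, coeff_add, finsetSum_coeff, coeff_C_mul_X_pow, if_pos rfl]
  rw [Finset.sum_eq_zero, zero_add]
  intro l _
  rw [coeff_C_mul_X_pow, if_neg]
  have := l.2
  omega

/-- The solution of the recursion that starts at the exponent `e i₁`. -/
noncomputable def S (e : Fin r → F) (c : Matrix (Fin r) (Fin r) F[X]) (i₁ : Fin r) :
    ℕ → Fin r → F[X]
  | 0 => fun i => if i = i₁ then 1 else 0
  | (k + 1) => fun i => S e c i₁ k i -
      C (((k : F) + 1 + e i₁ - e i)⁻¹) * ∑ j, c i j * S e c i₁ k j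

lemma S_succ (e : Fin r → F) (c : Matrix (Fin r) (Fin r) F[X]) (i₁ : Fin r) (k : ℕ) (i : Fin r) :
    S e c i₁ (k + 1) i = S e c i₁ k i -
      C (((k : F) + 1 + e i₁ - e i)⁻¹) * ∑ j, c i j * S e c i₁ k j := rfl

variable {e : Fin r → F} {c : Matrix (Fin r) (Fin r) F[X]} {i₁ : Fin r}

lemma S_deg (hc : ∀ i j, (c i j).natDegree ≤ d) (k : ℕ) (i : Fin r) :
    (S e c i₁ k i).natDegree ≤ d * k := by
  induction k generalizing i with
  | zero =>
    unfold S
    split_ifs <;> simp
  | succ k ih =>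
    rw [S_succ]
    refine (natDegree_sub_le _ _).trans (max_le ?_ ?_)
    · exact (ih i).trans (Nat.mul_le_mul_left d (Nat.le_succ k))
    · refine (natDegree_C_mul_le _ _).trans ?_
      refine natDegree_sum_le_of_forall_le _ _ fun j _ => ?_
      refine natDegree_mul_le.trans ?_
      rw [mul_add, mul_one, add_comm]
      exact add_le_add (ih j) (hc i j)

/-- The leading coefficients. -/
noncomputable def tau (e : Fin r → F) (c : Matrix (Fin r) (Fin r) F[X]) (i₁ : Fin r) (y : Fin r → F)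
    (d k : ℕ) : F := ∑ j, y j * (S e c i₁ k j).coeff (d * k)

lemma sum_coeff {x y : Fin r → F} (hc : ∀ i j, (c i j).natDegree ≤ d)
    (hx : ∀ i j, (c i j).coeff d = x i * y j) (k : ℕ) (i : Fin r) :
    (∑ j, c i j * S e c i₁ k j).coeff (d * (k + 1)) = x i * tau e c i₁ y d k := by
  rw [finsetSum_coeff, tau, mul_sum]
  refine sum_congr rfl fun j _ => ?_
  rw [mul_add, mul_one, add_comm (d * k) d, coeff_mul_add_eq_of_natDegree_le (hc i j) (S_deg hc k j), hx]
  ring

lemma tau_succ {x y : Fin r → F} (hd : 1 ≤ d) (hc : ∀ i j, (c i j).natDegree ≤ d)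
    (hx : ∀ i j, (c i j).coeff d = x i * y j) (k : ℕ) :
    tau e c i₁ y d (k + 1) =
      -(∑ i, x i * y i * ((k : F) + 1 + e i₁ - e i)⁻¹) * tau e c i₁ y d k := by
  have h1 : ∀ i, (S e c i₁ (k + 1) i).coeff (d * (k + 1)) =
      -(((k : F) + 1 + e i₁ - e i)⁻¹ * (x i * tau e c i₁ y d k)) := by
    intro i
    rw [S_succ, coeff_sub, coeff_C_mul, sum_coeff hc hx, coeff_eq_zero_of_natDegree_lt, zero_sub]
    refine (S_deg hc k i).trans_lt ?_
    exact Nat.mul_lt_mul_of_pos_left (Nat.lt_succ_self k) hd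
  conv_lhs => rw [tau]
  simp_rw [h1]
  rw [neg_mul, sum_mul, ← sum_neg_distrib]
  refine sum_congr rfl fun i _ => ?_
  ring

lemma tau_zero {y : Fin r → F} : tau e c i₁ y d 0 = y i₁ := by
  unfold tau S
  rw [Finset.sum_eq_single i₁]
  · simp
  · intro j _ hj
    simp [hj]
  · simp

/-- The first resonance polynomial is not zero and has degree at most `d g`. -/
theorem res_ne {x y : Fin r → F} (hd : 1 ≤ d) (hc : ∀ i j, (c i j).natDegree ≤ d)
    (hx : ∀ i j, (c i j).coeff d = x i * y j) (he : Function.Injective e) {w : F} (hw : w ≠ 0)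
    (hxy : ∀ i, x i * y i = w * Lagrange.nodalWeight univ e i) {g : ℕ}
    (hg : ∀ k < g, ∀ i, (k : F) + 1 + e i₁ - e i ≠ 0) (j : Fin r) :
    (∑ l, c j l * S e c i₁ g l) ≠ 0 ∧ (∑ l, c j l * S e c i₁ g l).natDegree ≤ d * (g + 1) := by
  have hne : ∀ i, x i * y i ≠ 0 := fun i => by
    rw [hxy]
    exact mul_ne_zero hw (Lagrange.nodalWeight_ne_zero he.injOn (mem_univ i))
  have h1 : ∀ k ≤ g, tau e c i₁ y d k ≠ 0 := by
    intro k hk
    induction k with
    | zero =>
      rw [tau_zero]
      exact right_ne_zero_of_mul (hne i₁)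
    | succ k ih =>
      rw [tau_succ hd hc hx]
      refine mul_ne_zero (neg_ne_zero.mpr ?_) (ih (by omega))
      have h2 : ∑ i, x i * y i * ((k : F) + 1 + e i₁ - e i)⁻¹ =
          w * ∑ i, Lagrange.nodalWeight univ e i * (((k : F) + 1 + e i₁) - e i)⁻¹ := by
        rw [mul_sum]
        refine sum_congr rfl fun i _ => ?_
        rw [hxy]
        ring
      rw [h2]
      refine mul_ne_zero hw (Lagrange.sum_nodalWeight_mul_inv_sub_ne_zero he.injOn ?_
        ⟨i₁, mem_univ _⟩)
      intro i _ h3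
      exact hg k (by omega) i (sub_eq_zero.mpr h3)
  refine ⟨fun h0 => ?_, ?_⟩
  · have h2 := sum_coeff (e := e) (i₁ := i₁) hc hx g j
    rw [h0, coeff_zero] at h2
    exact mul_ne_zero (left_ne_zero_of_mul (hne j)) (h1 g le_rfl) h2.symm
  · refine natDegree_sum_le_of_forall_le _ _ fun l _ => ?_
    refine natDegree_mul_le.trans ?_
    rw [mul_add, mul_one, add_comm]
    exact add_le_add (S_deg hc g l) (hc j l)

/-- A solution of the recursion at `t` is the value of `S`. -/
lemma eval_S {t lam : F} {s : ℕ → Fin r → F} (hs0 : ∀ i, s 0 i = if i = i₁ then lam else 0)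
    (hs : ∀ (k : ℕ) i, ((k : F) + 1 + e i₁ - e i) * s (k + 1) i = ((k : F) + 1 + e i₁ - e i) * s k i -
      ∑ j, (c i j).eval t * s k j) {g : ℕ}
    (hg : ∀ k < g, ∀ i, (k : F) + 1 + e i₁ - e i ≠ 0) (k : ℕ) (hk : k ≤ g) (i : Fin r) :
    s k i = lam * (S e c i₁ k i).eval t := by
  induction k generalizing i with
  | zero =>
    rw [hs0]
    unfold S
    split_ifs <;> simp
  | succ k ih =>
    have h0 := hg k (by omega) i
    have h1 := hs k i
    rw [S_succ, eval_sub, eval_mul, eval_C, eval_finsetSum, mul_sub, ← ih (by omega)]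
    have h2 : ∑ j, (c i j).eval t * s k j = lam * ∑ j, (c i j * S e c i₁ k j).eval t := by
      rw [mul_sum]
      refine sum_congr rfl fun j _ => ?_
      rw [ih (by omega) j, eval_mul]
      ring
    rw [h2] at h1
    field_simp
    linear_combination h1

theorem res_root {t lam : F} (hlam : lam ≠ 0) {s : ℕ → Fin r → F}
    (hs0 : ∀ i, s 0 i = if i = i₁ then lam else 0)
    (hs : ∀ (k : ℕ) i, ((k : F) + 1 + e i₁ - e i) * s (k + 1) i = ((k : F) + 1 + e i₁ - e i) * s k i -
      ∑ j, (c i j).eval t * s k j) {g : ℕ}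
    (hg : ∀ k < g, ∀ i, (k : F) + 1 + e i₁ - e i ≠ 0) {j : Fin r} (hj : (g : F) + 1 + e i₁ - e j = 0) :
    (∑ l, c j l * S e c i₁ g l).eval t = 0 := by
  have h1 := hs g j
  rw [hj, zero_mul, zero_mul, zero_sub] at h1
  have h2 : ∑ l, (c j l).eval t * s g l = lam * (∑ l, c j l * S e c i₁ g l).eval t := by
    rw [eval_finsetSum, mul_sum]
    refine sum_congr rfl fun l _ => ?_
    rw [eval_S hs0 hs hg g le_rfl, eval_mul]
    ring
  rw [h2] at h1
  have h3 : lam * (∑ l, c j l * S e c i₁ g l).eval t = 0 := by linear_combination h1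
  exact (mul_eq_zero.mp h3).resolve_left hlam

end Pool.Agent.U927.TP
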