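import Mathlib

set_option autoImplicit false

/-!
Vanishing `p`-curvature of `d/dt - (b / t + c / (t - 1))` gives solutions of the recursion at `0`
starting at every exponent.
-/

namespace Pool.Agent.U927.TP

open Finset PowerSeries

/-- The `p`-curvature of `∇ = d/dt - (b / t + c / (t - 1))` over `F_p` is zero: `Q k` is the matrix of
`(t (t - 1)) ^ k ∇ ^ k`. -/
def CurvZero {r : ℕ} (p : ℕ) (b c : Matrix (Fin r) (Fin r) (ZMod p)) : Prop :=
  ∀ Q : ℕ → Matrix (Fin r) (Fin r) (Polynomial (ZMod p)), Q 0 = 1 →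
    (∀ k : ℕ, Q (k + 1) =
      ((Polynomial.X * (Polynomial.X - 1) : Polynomial (ZMod p)) •
        (Q k).map fun f => Polynomial.derivative f)
      - ((k : Polynomial (ZMod p)) * (2 * Polynomial.X - 1)) • Q k
      - ((Polynomial.X - 1 : Polynomial (ZMod p)) • b.map Polynomial.C +
          (Polynomial.X : Polynomial (ZMod p)) • c.map Polynomial.C) * Q k) →
    Q p = 0

variable {r : ℕ} {F : Type*} [Field F]

noncomputable def W : F⟦X⟧ := (X - 1)⁻¹

lemma hW : (X - 1 : F⟦X⟧) * W = 1 := by
  unfold W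
  refine PowerSeries.mul_inv_cancel _ ?_
  simp

/-- The operator `t ∇` on vectors of power series. -/
noncomputable def Tt (e : Fin r → F) (c : Matrix (Fin r) (Fin r) F) :
    Module.End F (Fin r → F⟦X⟧) where
  toFun f := fun i => X * d⁄dX F (f i) - C (e i) * f i - X * W * ∑ j, C (c i j) * f j
  map_add' f g := by
    funext i
    simp only [Pi.add_apply, map_add, mul_add, Finset.sum_add_distrib]
    ring
  map_smul' a f := by
    funext i
    simp only [Pi.smul_apply, RingHom.id_apply, smul_eq_C_mul, Derivation.leibniz, smul_eq_mul,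
      PowerSeries.derivative_C, mul_zero, add_zero]
    have h1 : ∑ j, C (c i j) * (C a * f j) = C a * ∑ j, C (c i j) * f j := by
      rw [mul_sum]
      exact sum_congr rfl fun j _ => by ring
    rw [h1]
    ring

lemma Tt_apply (e : Fin r → F) (c : Matrix (Fin r) (Fin r) F) (f : Fin r → F⟦X⟧) (i : Fin r) :
    Tt e c f i = X * d⁄dX F (f i) - C (e i) * f i - X * W * ∑ j, C (c i j) * f j := rfl

/-- The falling product. -/
noncomputable def Pk (F : Type*) [Field F] (k : ℕ) : Polynomial F :=
  ∏ i ∈ range k, (Polynomial.X - Polynomial.C (i : F))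

lemma constCoeff_aeval (e : Fin r → F) (c : Matrix (Fin r) (Fin r) F) {a : F} {i₁ : Fin r}
    (ha : a = -e i₁) (G : Polynomial F) {f : Fin r → F⟦X⟧} {lam : F}
    (hf : ∀ i, constantCoeff (f i) = if i = i₁ then lam else 0) (i : Fin r) :
    constantCoeff (Polynomial.aeval (Tt e c) G f i) = if i = i₁ then G.eval a * lam else 0 := by
  have hT : ∀ (f : Fin r → F⟦X⟧) (mu : F), (∀ i, constantCoeff (f i) = if i = i₁ then mu else 0) →
      ∀ i, constantCoeff (Tt e c f i) = if i = i₁ then a * mu else 0 := by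
    intro f mu hf i
    rw [Tt_apply, map_sub, map_sub, map_mul, map_mul, map_mul, map_mul, constantCoeff_X, zero_mul,
      zero_mul, zero_mul, zero_sub, sub_zero, hf, constantCoeff_C]
    split_ifs with h
    · rw [ha, h]; ring
    · ring
  induction G using Polynomial.induction_on' generalizing i with
  | add p q hp hq =>
    rw [map_add, LinearMap.add_apply, Pi.add_apply, map_add, hp, hq, Polynomial.eval_add]
    split_ifs
    · ring
    · ring
  | monomial n b =>
    have h1 : ∀ n : ℕ, ∀ i, constantCoeff (((Tt e c) ^ n) f i) =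
        if i = i₁ then a ^ n * lam else 0 := by
      intro n
      induction n with
      | zero => intro i; rw [pow_zero, pow_zero, one_mul]; exact hf i
      | succ n ih =>
        intro i
        rw [pow_succ', Module.End.mul_apply, hT _ _ ih]
        split_ifs
        · ring
        · rfl
    rw [Polynomial.aeval_monomial, Module.algebraMap_end_eq_smul_id, smul_mul_assoc,
      LinearMap.smul_apply]
    simp only [Module.End.mul_apply, LinearMap.id_apply, Pi.smul_apply]
    rw [smul_eq_C_mul, map_mul, constantCoeff_C, h1, Polynomial.eval_monomial]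
    split_ifs
    · ring
    · ring

lemma aeval_Pk_succ (T : Module.End F (Fin r → F⟦X⟧)) (k : ℕ) (f : Fin r → F⟦X⟧) (i : Fin r) :
    Polynomial.aeval T (Pk F (k + 1)) f i =
      T (Polynomial.aeval T (Pk F k) f) i - C (k : F) * Polynomial.aeval T (Pk F k) f i := by
  unfold Pk
  rw [prod_range_succ, mul_comm, map_mul, Module.End.mul_apply, map_sub, Polynomial.aeval_X,
    Polynomial.aeval_C, LinearMap.sub_apply, Module.algebraMap_end_apply, Pi.sub_apply,
    Pi.smul_apply, smul_eq_C_mul]

lemma step (e : Fin r → F) (c : Matrix (Fin r) (Fin r) F) {f A : Fin r → F⟦X⟧} {k : ℕ}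
    (h : ∀ i, (X - 1) ^ k * f i = A i) (i : Fin r) :
    (X - 1) ^ (k + 1) * (Tt e c f i - C (k : F) * f i) = X * (X - 1) * d⁄dX F (A i)
      - C (k : F) * (2 * X - 1) * A i
      - ((X - 1) * C (e i) * A i + X * ∑ j, C (c i j) * A j) := by
  have h1 : (X - 1) * d⁄dX F (A i) = C (k : F) * A i + (X - 1) ^ (k + 1) * d⁄dX F (f i) := by
    rw [← h i, Derivation.leibniz, Derivation.leibniz_pow]
    have h2 : d⁄dX F (X - 1 : F⟦X⟧) = 1 := by
      rw [map_sub, derivative_X, Derivation.map_one_eq_zero, sub_zero]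
    rw [h2]
    rcases k with _ | k
    · simp
    · simp only [smul_eq_mul, nsmul_eq_mul, Nat.add_sub_cancel, mul_one, map_natCast]
      ring
  have h3 : (X - 1) ^ k * ∑ j, C (c i j) * f j = ∑ j, C (c i j) * A j := by
    rw [mul_sum]
    refine sum_congr rfl fun j _ => ?_
    rw [← h j]
    ring
  have h4 := hW (F := F)
  rw [Tt_apply]
  have h5 : (X - 1) ^ (k + 1) * (X * W * ∑ j, C (c i j) * f j) = X * ∑ j, C (c i j) * A j := by
    rw [← h3]
    calc (X - 1) ^ (k + 1) * (X * W * ∑ j, C (c i j) * f j)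
        = X * ((X - 1) ^ k * ∑ j, C (c i j) * f j) * ((X - 1) * W) := by ring
      _ = _ := by rw [h4, mul_one]
  rw [mul_sub, mul_sub, mul_sub, h5]
  have h6 : (X - 1) ^ (k + 1) * (X * d⁄dX F (f i)) =
      X * ((X - 1) * d⁄dX F (A i) - C (k : F) * A i) := by
    rw [h1]; ring
  rw [h6]
  have h7 : (X - 1) ^ (k + 1) * (C (e i) * f i) = C (e i) * (X - 1) * A i := by
    rw [← h i]; ring
  have h8 : (X - 1) ^ (k + 1) * (C (k : F) * f i) = C (k : F) * (X - 1) * A i := by
    rw [← h i]; ring
  rw [h7, h8]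
  ring

variable {p : ℕ} [Fact p.Prime]

/-- The starting vector. -/
noncomputable def f0 (F : Type*) [Field F] {r : ℕ} (i₁ : Fin r) : Fin r → F⟦X⟧ :=
  fun i => if i = i₁ then 1 else 0

lemma link (e : Fin r → ZMod p) (c : Matrix (Fin r) (Fin r) (ZMod p)) (i₁ : Fin r)
    {Q : ℕ → Matrix (Fin r) (Fin r) (Polynomial (ZMod p))} (hQ0 : Q 0 = 1)
    (hQ : ∀ k : ℕ, Q (k + 1) =
      ((Polynomial.X * (Polynomial.X - 1) : Polynomial (ZMod p)) •
        (Q k).map fun f => Polynomial.derivative f)
      - ((k : Polynomial (ZMod p)) * (2 * Polynomial.X - 1)) • Q k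
      - ((Polynomial.X - 1 : Polynomial (ZMod p)) • (Matrix.diagonal e).map Polynomial.C +
          (Polynomial.X : Polynomial (ZMod p)) • c.map Polynomial.C) * Q k) (k : ℕ) (i : Fin r) :
    (X - 1) ^ k * Polynomial.aeval (Tt e c) (Pk (ZMod p) k) (f0 (ZMod p) i₁) i =
      ((Q k i i₁ : Polynomial (ZMod p)) : (ZMod p)⟦X⟧) := by
  induction k generalizing i with
  | zero =>
    rw [hQ0, pow_zero, one_mul]
    unfold Pk f0
    rw [prod_range_zero, map_one, Module.End.one_apply, Matrix.one_apply]
    split_ifs <;> simp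
  | succ k ih =>
    rw [aeval_Pk_succ, step e c (fun i => ih i), hQ k]
    rw [Matrix.sub_apply, Matrix.sub_apply, Matrix.smul_apply, Matrix.smul_apply, Matrix.map_apply,
      Matrix.mul_apply]
    have h1 : ∑ j, ((Polynomial.X - 1 : Polynomial (ZMod p)) • (Matrix.diagonal e).map Polynomial.C +
          (Polynomial.X : Polynomial (ZMod p)) • c.map Polynomial.C) i j * Q k j i₁ =
        (Polynomial.X - 1) * Polynomial.C (e i) * Q k i i₁ +
          Polynomial.X * ∑ j, Polynomial.C (c i j) * Q k j i₁ := by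
      have h2 : ∀ j, ((Polynomial.X - 1 : Polynomial (ZMod p)) •
          (Matrix.diagonal e).map Polynomial.C +
          (Polynomial.X : Polynomial (ZMod p)) • c.map Polynomial.C) i j * Q k j i₁ =
          (if j = i then (Polynomial.X - 1) * Polynomial.C (e i) * Q k i i₁ else 0) +
            Polynomial.X * (Polynomial.C (c i j) * Q k j i₁) := by
        intro j
        rw [Matrix.add_apply, Matrix.smul_apply, Matrix.smul_apply, Matrix.map_apply,
          Matrix.map_apply, smul_eq_mul, smul_eq_mul]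
        by_cases hj : j = i
        · subst hj
          rw [if_pos rfl, Matrix.diagonal_apply_eq]
          ring
        · rw [if_neg hj, Matrix.diagonal_apply_ne _ (Ne.symm hj), map_zero]
          ring
      simp_rw [h2]
      rw [sum_add_distrib, mul_sum]
      simp
    rw [h1]
    simp only [smul_eq_mul, Polynomial.coe_sub, Polynomial.coe_mul, Polynomial.coe_add,
      Polynomial.coe_X, Polynomial.coe_one, Polynomial.coe_C, derivative_coe]
    have h3 : ((∑ j, Polynomial.C (c i j) * Q k j i₁ : Polynomial (ZMod p)) : (ZMod p)⟦X⟧) =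
        ∑ j, C (c i j) * ((Q k j i₁ : Polynomial (ZMod p)) : (ZMod p)⟦X⟧) := by
      rw [← Polynomial.coeToPowerSeries.ringHom_apply, map_sum]
      refine sum_congr rfl fun j _ => ?_
      rw [map_mul, Polynomial.coeToPowerSeries.ringHom_apply,
        Polynomial.coeToPowerSeries.ringHom_apply, Polynomial.coe_C]
    rw [h3]
    have h4 : ((k : Polynomial (ZMod p)) : (ZMod p)⟦X⟧) = C (k : ZMod p) := by
      rw [← Polynomial.C_eq_natCast, Polynomial.coe_C]
    have h5 : ((2 : Polynomial (ZMod p)) : (ZMod p)⟦X⟧) = 2 := by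
      rw [← Polynomial.coeToPowerSeries.ringHom_apply, map_ofNat]
    rw [h4, h5]

lemma coeff_X_der (f : F⟦X⟧) (k : ℕ) : coeff k (X * d⁄dX F f) = k * coeff k f := by
  rcases k with _ | k
  · simp
  · rw [coeff_succ_X_mul, coeff_derivative]
    push_cast
    ring

/-- A horizontal section starting at an exponent gives a solution of the recursion. -/
lemma rec_of_hor (e : Fin r → F) (c : Matrix (Fin r) (Fin r) F) (i₁ : Fin r) {f : Fin r → F⟦X⟧}
    (hf : ∀ i, Tt e c f i = C (-e i₁) * f i) {s : ℕ → Fin r → F}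
    (hs : ∀ k i, s k i = coeff k (-W * f i)) (k : ℕ) (i : Fin r) :
    ((k : F) + 1 + e i₁ - e i) * s (k + 1) i = ((k : F) + 1 + e i₁ - e i) * s k i -
      ∑ j, c i j * s k j := by
  set S : Fin r → F⟦X⟧ := fun i => -W * f i with hS
  have h4 := hW (F := F)
  have hfS : ∀ i, f i = -((X - 1) * S i) := by
    intro i
    rw [hS]
    calc f i = 1 * f i := (one_mul _).symm
      _ = (X - 1) * W * f i := by rw [h4]
      _ = _ := by ring
  have h2 : d⁄dX F (X - 1 : F⟦X⟧) = 1 := by
    rw [map_sub, derivative_X, Derivation.map_one_eq_zero, sub_zero]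
  have h1 := hf i
  rw [Tt_apply] at h1
  have h3 : d⁄dX F (f i) = -(S i + (X - 1) * d⁄dX F (S i)) := by
    rw [hfS i, map_neg, Derivation.leibniz, h2, smul_eq_mul, smul_eq_mul]
    ring
  have h5 : X * W * ∑ j, C (c i j) * f j = -(X * ∑ j, C (c i j) * S j) := by
    have h6 : ∑ j, C (c i j) * f j = -((X - 1) * ∑ j, C (c i j) * S j) := by
      rw [mul_sum, ← sum_neg_distrib]
      refine sum_congr rfl fun j _ => ?_
      rw [hfS j]
      ring
    rw [h6]
    calc X * W * -((X - 1) * ∑ j, C (c i j) * S j) = -(X * ∑ j, C (c i j) * S j) * ((X - 1) * W) := by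
          ring
      _ = _ := by rw [h4, mul_one]
  rw [h3, h5, hfS i, map_neg] at h1
  have h7 : X * S i + X * (X * d⁄dX F (S i)) - X * d⁄dX F (S i)
      - C (e i) * (X * S i) + C (e i) * S i + C (e i₁) * (X * S i) - C (e i₁) * S i
      - X * ∑ j, C (c i j) * S j = 0 := by
    linear_combination -h1
  have h8 := congrArg (coeff (k + 1)) h7
  simp only [map_sub, map_add, map_zero, coeff_C_mul] at h8
  rw [coeff_X_der, coeff_succ_X_mul, coeff_succ_X_mul, coeff_succ_X_mul, coeff_X_der, map_sum] at h8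
  simp only [coeff_C_mul] at h8
  have h9 : ∀ k i, coeff k (S i) = s k i := fun k i => (hs k i).symm
  simp only [h9] at h8
  push_cast at h8
  linear_combination -h8

/-- Vanishing `p`-curvature: there is a solution of the recursion starting at every exponent. -/
theorem exists_sol (e : Fin r → ZMod p) (c : Matrix (Fin r) (Fin r) (ZMod p)) (i₁ : Fin r)
    (h : CurvZero p (Matrix.diagonal e) c) :
    ∃ lam : ZMod p, lam ≠ 0 ∧ ∃ s : ℕ → Fin r → ZMod p,
      (∀ i, s 0 i = if i = i₁ then lam else 0) ∧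
      ∀ (k : ℕ) i, ((k : ZMod p) + 1 + e i₁ - e i) * s (k + 1) i =
        ((k : ZMod p) + 1 + e i₁ - e i) * s k i - ∑ j, c i j * s k j := by
  set Q : ℕ → Matrix (Fin r) (Fin r) (Polynomial (ZMod p)) := fun n => Nat.rec 1 (fun k M =>
      ((Polynomial.X * (Polynomial.X - 1) : Polynomial (ZMod p)) •
        M.map fun f => Polynomial.derivative f)
      - ((k : Polynomial (ZMod p)) * (2 * Polynomial.X - 1)) • M
      - ((Polynomial.X - 1 : Polynomial (ZMod p)) • (Matrix.diagonal e).map Polynomial.C +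
          (Polynomial.X : Polynomial (ZMod p)) • c.map Polynomial.C) * M) n with hQ
  have hQp : Q p = 0 := h Q rfl fun k => rfl
  have hX1 : (X - 1 : (ZMod p)⟦X⟧) ≠ 0 := by
    intro h0
    have := hW (F := ZMod p)
    rw [h0, zero_mul] at this
    exact zero_ne_one this
  have hP : ∀ i, Polynomial.aeval (Tt e c) (Pk (ZMod p) p) (f0 (ZMod p) i₁) i = 0 := by
    intro i
    have h1 := link e c i₁ (Q := Q) rfl (fun k => rfl) p i
    rw [hQp, Matrix.zero_apply, Polynomial.coe_zero] at h1
    exact (mul_eq_zero.mp h1).resolve_left (pow_ne_zero _ hX1)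
  set a : ZMod p := -e i₁ with ha
  have hval : ((a.val : ℕ) : ZMod p) = a := ZMod.natCast_zmod_val a
  have hmem : a.val ∈ range p := mem_range.mpr (ZMod.val_lt a)
  set G : Polynomial (ZMod p) :=
    ∏ i ∈ (range p).erase a.val, (Polynomial.X - Polynomial.C (i : ZMod p)) with hG
  have hPG : Pk (ZMod p) p = (Polynomial.X - Polynomial.C a) * G := by
    unfold Pk
    rw [hG, ← mul_prod_erase _ _ hmem, hval]
  have hGa : G.eval a ≠ 0 := by
    rw [hG, Polynomial.eval_prod, prod_ne_zero_iff]
    intro i hi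
    rw [mem_erase, mem_range] at hi
    rw [Polynomial.eval_sub, Polynomial.eval_X, Polynomial.eval_C]
    intro h0
    apply hi.1
    have h1 : (i : ZMod p) = a := (sub_eq_zero.mp h0).symm
    rw [← h1, ZMod.val_natCast_of_lt hi.2]
  set f := Polynomial.aeval (Tt e c) G (f0 (ZMod p) i₁) with hf
  have hTf : ∀ i, Tt e c f i = C (-e i₁) * f i := by
    intro i
    have h1 := hP i
    rw [hPG, map_mul, Module.End.mul_apply, map_sub, Polynomial.aeval_X, Polynomial.aeval_C,
      LinearMap.sub_apply, Module.algebraMap_end_apply, Pi.sub_apply, Pi.smul_apply,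
      smul_eq_C_mul] at h1
    exact sub_eq_zero.mp h1
  have hcf : ∀ i, constantCoeff (f i) = if i = i₁ then G.eval a * 1 else 0 := by
    refine constCoeff_aeval e c ha G ?_
    intro i
    unfold f0
    split_ifs <;> simp
  refine ⟨G.eval a * 1, by rw [mul_one]; exact hGa, fun k i => coeff k (-W * f i), ?_,
    fun k i => rec_of_hor e c i₁ hTf (fun k i => rfl) k i⟩
  intro i
  have hcW : constantCoeff (W : (ZMod p)⟦X⟧) = -1 := by
    have h1 := congrArg constantCoeff (hW (F := ZMod p))
    rw [map_mul, map_sub, constantCoeff_X, map_one, zero_sub] at h1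
    linear_combination -h1
  change coeff 0 (-W * f i) = _
  rw [coeff_zero_eq_constantCoeff_apply, map_mul, map_neg, hcW, hcf]
  ring_nf

end Pool.Agent.U927.TP
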