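import Mathlib
import Pool.Agent.U927.TP.Cnt
import Pool.Agent.U927.TP.Pc
import Pool.Agent.U927.PC.MN
import Pool.Agent.U927.PC.HN

set_option autoImplicit false

/-!
The number of classes modulo `p` of the parameter for which the `p`-curvature vanishes.
-/

namespace Pool.Agent.U927.TP

open Finset Pool.Agent.U927.PC

variable {p : ℕ} [hp : Fact p.Prime] {r d : ℕ}

lemma ex_gap (e : Fin r → ZMod p) (i : Fin r) : ∃ g : ℕ, 0 < g ∧ ∃ j, e j = e i + g :=
  ⟨p, hp.out.pos, i, by rw [ZMod.natCast_self, add_zero]⟩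

open Classical in
/-- The distance to the next exponent. -/
noncomputable def gp (e : Fin r → ZMod p) (i : Fin r) : ℕ := Nat.find (ex_gap e i)

open Classical in
lemma gp_spec (e : Fin r → ZMod p) (i : Fin r) : 0 < gp e i ∧ ∃ j, e j = e i + (gp e i : ℕ) :=
  Nat.find_spec (ex_gap e i)

open Classical in
lemma gp_le {e : Fin r → ZMod p} {i : Fin r} {g : ℕ} (hg : 0 < g) (h : ∃ j, e j = e i + g) :
    gp e i ≤ g := Nat.find_min' (ex_gap e i) ⟨hg, h⟩

lemma gp_le_p (e : Fin r → ZMod p) (i : Fin r) : gp e i ≤ p :=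
  gp_le hp.out.pos ⟨i, by rw [ZMod.natCast_self, add_zero]⟩

lemma sum_gp {e : Fin r → ZMod p} (he : Function.Injective e) : ∑ i, gp e i ≤ p := by
  classical
  set A : Fin r → Finset (ZMod p) := fun i => (range (gp e i)).image fun k : ℕ => e i + (k : ZMod p)
    with hA
  have hcard : ∀ i, (A i).card = gp e i := by
    intro i
    rw [hA]
    simp only
    rw [card_image_of_injOn, card_range]
    intro k hk l hl hkl
    have h1 : (k : ZMod p) = l := add_left_cancel hkl
    have h2 : k < p := (mem_range.mp (mem_coe.mp hk)).trans_le (gp_le_p e i)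
    have h3 : l < p := (mem_range.mp (mem_coe.mp hl)).trans_le (gp_le_p e i)
    rw [← ZMod.val_natCast_of_lt h2, ← ZMod.val_natCast_of_lt h3, h1]
  have key : ∀ i j : Fin r, i ≠ j → ∀ k l : ℕ, k < gp e i → l < gp e j → k ≤ l →
      e i + (k : ZMod p) ≠ e j + (l : ZMod p) := by
    intro i j hij k l hk hl hkl h0
    have h1 : e i = e j + ((l - k : ℕ) : ZMod p) := by
      rw [Nat.cast_sub hkl]
      linear_combination h0
    rcases Nat.eq_zero_or_pos (l - k) with h2 | h2
    · rw [h2, Nat.cast_zero, add_zero] at h1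
      exact hij (he h1)
    · have := gp_le (e := e) (i := j) h2 ⟨i, h1⟩
      omega
  have hdis : Set.PairwiseDisjoint (↑(univ : Finset (Fin r)) : Set (Fin r)) A := by
    intro i _ j _ hij
    rw [Function.onFun, Finset.disjoint_left]
    intro z hz hz'
    rw [hA] at hz hz'
    simp only [mem_image, mem_range] at hz hz'
    obtain ⟨k, hk, rfl⟩ := hz
    obtain ⟨l, hl, hkl⟩ := hz'
    rcases le_total k l with h | h
    · exact key i j hij k l hk hl h hkl.symm
    · exact key j i hij.symm l k hl hk h hkl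
  calc ∑ i, gp e i = ∑ i, (A i).card := sum_congr rfl fun i _ => (hcard i).symm
    _ = (univ.biUnion A).card := (card_biUnion hdis).symm
    _ ≤ (univ : Finset (ZMod p)).card := card_le_univ _
    _ = p := by rw [card_univ, ZMod.card]

/-- The bound for one exponent. -/
theorem card_le_gp (hd : 1 ≤ d) {e : Fin r → ZMod p} (he : Function.Injective e)
    (c : Fin d → Matrix (Fin r) (Fin r) (ZMod p)) (x y : Fin r → ZMod p) {w : ZMod p} (hw : w ≠ 0)
    (hxy : ∀ i, x i * y i = w * Lagrange.nodalWeight univ e i) (i₁ : Fin r)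
    (T : Finset (ZMod p)) (hT : ∀ t ∈ T, CurvZero p (Matrix.diagonal e)
      (Matrix.of fun i j => (cq c x y i j).eval t)) : T.card ≤ d * gp e i₁ := by
  classical
  obtain ⟨hg0, j, hj⟩ := gp_spec e i₁
  obtain ⟨m, hm⟩ : ∃ m, gp e i₁ = m + 1 := ⟨gp e i₁ - 1, by omega⟩
  rw [hm] at hj ⊢
  have hlt : ∀ k < m, ∀ i, (k : ZMod p) + 1 + e i₁ - e i ≠ 0 := by
    intro k hk i h0
    have h1 : e i = e i₁ + ((k + 1 : ℕ) : ZMod p) := by
      push_cast
      linear_combination -h0
    have := gp_le (e := e) (i := i₁) (Nat.succ_pos k) ⟨i, h1⟩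
    omega
  have hc := cq_deg c x y
  obtain ⟨hne, hdeg⟩ := res_ne (e := e) (i₁ := i₁) hd hc (cq_coeff c x y) he hw hxy hlt j
  have hsub : T ⊆ (∑ l, cq c x y j l * S e (cq c x y) i₁ m l).roots.toFinset := by
    intro t ht
    rw [Multiset.mem_toFinset, Polynomial.mem_roots hne, Polynomial.IsRoot.def]
    obtain ⟨lam, hlam, s, hs0, hs⟩ := exists_sol e _ i₁ (hT t ht)
    refine res_root (e := e) (c := cq c x y) hlam hs0 ?_ hlt ?_
    · intro k i
      have := hs k i
      simp only [Matrix.of_apply] at this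
      exact this
    · rw [hj]; push_cast; ring
  calc T.card ≤ _ := card_le_card hsub
    _ ≤ _ := Multiset.toFinset_card_le _
    _ ≤ _ := Polynomial.card_roots' _
    _ ≤ _ := hdeg

/-- The bound in terms of the class of `p`. -/
theorem card_real (hd : 1 ≤ d) {e : Fin r → ZMod p} (he : Function.Injective e)
    (c : Fin d → Matrix (Fin r) (Fin r) (ZMod p)) (x y : Fin r → ZMod p) {w : ZMod p} (hw : w ≠ 0)
    (hxy : ∀ i, x i * y i = w * Lagrange.nodalWeight univ e i) {i₁ i₂ : Fin r}
    {N : ℕ} (hN : 2 ≤ N) {u : ℤ} (hcop : u.natAbs.Coprime N) {M : ℕ} (huM : |u| ≤ M) (hpM : M < p)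
    (hpN : ¬ p ∣ N) (hx : (N : ZMod p) * (e i₂ - e i₁) = u) (T : Finset (ZMod p))
    (hT : ∀ t ∈ T, CurvZero p (Matrix.diagonal e)
      (Matrix.of fun i j => (cq c x y i j).eval t)) :
    (T.card : ℝ) ≤ p / Gf r d N (-(u : ZMod N) * (p : ZMod N)⁻¹).val + d * M / N := by
  obtain ⟨hg0, hgw, hwN⟩ := gap hN hcop huM hpM hpN hx
  set g₀ := (e i₂ - e i₁).val with hg₀
  set w' := (-(u : ZMod N) * (p : ZMod N)⁻¹).val with hw'
  have hglt : g₀ < p := ZMod.val_lt _
  have hgcast : ((g₀ : ℕ) : ZMod p) = e i₂ - e i₁ := ZMod.natCast_zmod_val _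
  have hall := fun i => card_le_gp hd he c x y hw hxy i T hT
  have h1 : T.card ≤ d * g₀ := by
    refine (hall i₁).trans (Nat.mul_le_mul_left d (gp_le hg0 ⟨i₂, ?_⟩))
    rw [hgcast]; ring
  have h2 : T.card ≤ d * (p - g₀) := by
    refine (hall i₂).trans (Nat.mul_le_mul_left d (gp_le (by omega) ⟨i₁, ?_⟩))
    rw [Nat.cast_sub hglt.le, hgcast, ZMod.natCast_self]; ring
  have h3 : T.card * r ≤ d * p := by
    have h5 : ∑ _i : Fin r, T.card ≤ ∑ i, d * gp e i := sum_le_sum fun i _ => hall i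
    rw [sum_const, card_univ, Fintype.card_fin, smul_eq_mul, ← mul_sum, mul_comm] at h5
    exact h5.trans (Nat.mul_le_mul_left d (sum_gp he))
  have h4 : T.card ≤ p := by
    have := Finset.card_le_univ T
    rwa [ZMod.card] at this
  have hdR : (1 : ℝ) ≤ d := by exact_mod_cast hd
  have hNR : (2 : ℝ) ≤ N := by exact_mod_cast hN
  have hMR : (0 : ℝ) ≤ M := Nat.cast_nonneg M
  have hpR : (0 : ℝ) < p := by exact_mod_cast hp.out.pos
  have hE : (0 : ℝ) ≤ d * M / N := by positivity
  have huR : |(u : ℝ)| ≤ M := by exact_mod_cast huM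
  have huR' := abs_le.mp huR
  have hgR : (N : ℝ) * g₀ = u + p * w' := by exact_mod_cast hgw
  have hwNR : (w' : ℝ) ≤ N := by exact_mod_cast hwN.le
  have h5 : (T.card : ℝ) ≤ d * (M + p * w') / N := by
    rw [le_div_iff₀ (by linarith)]
    have h1' : (T.card : ℝ) ≤ d * g₀ := by exact_mod_cast h1
    calc (T.card : ℝ) * N ≤ d * g₀ * N := by gcongr
      _ = d * (N * g₀) := by ring
      _ = d * (u + p * w') := by rw [hgR]
      _ ≤ d * (M + p * w') := by gcongr; exact huR'.2
  have h6 : (T.card : ℝ) ≤ d * (M + p * (N - w')) / N := by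
    rw [le_div_iff₀ (by linarith)]
    have h2' : (T.card : ℝ) ≤ d * (p - g₀) := by
      have : ((p - g₀ : ℕ) : ℝ) = p - g₀ := by rw [Nat.cast_sub hglt.le]
      rw [← this]
      exact_mod_cast h2
    calc (T.card : ℝ) * N ≤ d * (p - g₀) * N := by gcongr
      _ = d * (p * N - N * g₀) := by ring
      _ = d * (p * N - (u + p * w')) := by rw [hgR]
      _ ≤ d * (M + p * (N - w')) := by
        refine mul_le_mul_of_nonneg_left ?_ (by linarith)
        linarith [huR'.1]
  have h7 : (T.card : ℝ) ≤ d * (M + p * (min w' (N - w') : ℕ)) / N := by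
    rcases min_choice w' (N - w') with hm | hm
    · rw [hm]; exact h5
    · rw [hm, Nat.cast_sub hwN.le]; exact h6
  have hw0 : 0 < w' := by
    rcases Nat.eq_zero_or_pos w' with h0 | h0
    · exfalso
      rw [h0] at hgw
      have h8 : (N : ℤ) ∣ u := ⟨g₀, by push_cast at hgw; linarith⟩
      have h9 : N ∣ u.natAbs.gcd N := Nat.dvd_gcd (Int.natCast_dvd.mp h8) dvd_rfl
      rw [Nat.Coprime] at hcop
      rw [hcop] at h9
      have := Nat.dvd_one.mp h9
      omega
    · exact h0
  have hmin : 0 < min w' (N - w') := by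
    rw [lt_min_iff]; omega
  have hminR : (0 : ℝ) < (min w' (N - w') : ℕ) := by exact_mod_cast hmin
  unfold Gf
  rcases max_choice (max 1 ((r : ℝ) / d)) ((N : ℝ) / (d * (min w' (N - w') : ℕ))) with hm | hm
  · rw [hm]
    rcases max_choice 1 ((r : ℝ) / d) with hm' | hm'
    · rw [hm', div_one]
      have : (T.card : ℝ) ≤ p := by exact_mod_cast h4
      linarith
    · have h8 : (1 : ℝ) ≤ r / d := by rw [← hm']; exact le_max_left _ _
      rw [hm']
      have h9 : (0 : ℝ) < r := by
        by_contra h0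
        push Not at h0
        have : (r : ℝ) / d ≤ 0 := div_nonpos_of_nonpos_of_nonneg h0 (by linarith)
        linarith
      have h10 : (T.card : ℝ) ≤ p / (r / d) := by
        rw [div_div_eq_mul_div, le_div_iff₀ h9, mul_comm (p : ℝ)]
        exact_mod_cast h3
      linarith
  · rw [hm]
    refine h7.trans_eq ?_
    have hd0 : (d : ℝ) ≠ 0 := by linarith
    have hN0 : (N : ℝ) ≠ 0 := by linarith
    field_simp
    ring

end Pool.Agent.U927.TP
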