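import Mathlib
import Pool.Agent.U927.TP.Gap

set_option autoImplicit false

/-!
Systems on the thrice punctured line depending on a rational parameter: the main bound.
-/

namespace Pool.Agent.U927.TP

open Finset Pool.Agent.U927.PC

variable {r d : ℕ}

/-- The residue at `0` modulo `p`. -/
def res0 (n : ℕ) (a : Fin r → ℤ) (p : ℕ) : Matrix (Fin r) (Fin r) (ZMod p) :=
  Matrix.diagonal fun i => (a i : ZMod p) * (n : ZMod p)⁻¹

/-- The residue at `1` modulo `p`. -/
def res1 (n : ℕ) (c : Fin d → Matrix (Fin r) (Fin r) ℤ) (x y : Fin r → ℤ) (q : ℚ) (p : ℕ) :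
    Matrix (Fin r) (Fin r) (ZMod p) :=
  Matrix.of fun i j => ((∑ l : Fin d, ((q.num : ZMod p) * (q.den : ZMod p)⁻¹) ^ (l : ℕ) *
    (c l i j : ZMod p)) + ((q.num : ZMod p) * (q.den : ZMod p)⁻¹) ^ d *
      ((x i : ZMod p) * (y j : ZMod p))) * (n : ZMod p)⁻¹

theorem per_prime {p : ℕ} [hp : Fact p.Prime] (hd : 1 ≤ d) {n : ℕ} (hn : 0 < n) {a x y : Fin r → ℤ} {κ : ℤ}
    (hκ : κ ≠ 0) (hxy : ∀ i, x i * y i * ∏ j ∈ univ.erase i, (a i - a j) = κ) {i₁ i₂ : Fin r}
    {N : ℕ} (hN : 2 ≤ N) (hden : (((a i₂ - a i₁ : ℤ) : ℚ) / n).den = N)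
    (c : Fin d → Matrix (Fin r) (Fin r) ℤ) (hpn : n < p) (hpκ : κ.natAbs < p) (hpN : N < p)
    (hpM : (((a i₂ - a i₁ : ℤ) : ℚ) / n).num.natAbs < p) (T : Finset (ZMod p))
    (hT : ∀ t ∈ T, ∃ q : ℚ, ((q.den : ZMod p) ≠ 0 ∧ CurvZero p (res0 n a p) (res1 n c x y q p)) ∧
      red p q = t) :
    (T.card : ℝ) ≤ p / Gf r d N
      (-((((a i₂ - a i₁ : ℤ) : ℚ) / n).num : ZMod N) * (p : ZMod N)⁻¹).val +
      d * ((((a i₂ - a i₁ : ℤ) : ℚ) / n).num.natAbs : ℕ) / N := by
  have hn0 : (n : ZMod p) ≠ 0 := by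
    intro h0
    rw [ZMod.natCast_eq_zero_iff] at h0
    exact absurd (Nat.le_of_dvd hn h0) (by omega)
  have hκ0 : (κ : ZMod p) ≠ 0 := by
    intro h0
    rw [ZMod.intCast_zmod_eq_zero_iff_dvd, Int.natCast_dvd] at h0
    exact absurd (Nat.le_of_dvd (Int.natAbs_pos.mpr hκ) h0) (by omega)
  have hpN' : ¬ p ∣ N := fun h0 => absurd (Nat.le_of_dvd (by omega) h0) (by omega)
  set δ : ℚ := ((a i₂ - a i₁ : ℤ) : ℚ) / n with hδ
  have hnQ : (n : ℚ) ≠ 0 := by exact_mod_cast hn.ne'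
  have hNQ : (N : ℚ) ≠ 0 := by
    have : (0 : ℚ) < N := by exact_mod_cast (by omega : 0 < N)
    exact this.ne'
  have hcross : (N : ℤ) * (a i₂ - a i₁) = δ.num * n := by
    have h1 : (N : ℚ) * ((a i₂ - a i₁ : ℤ) : ℚ) = δ.num * n := by
      have h2 := Rat.mul_den_eq_num δ
      rw [hden] at h2
      rw [← h2, hδ]
      field_simp
    exact_mod_cast h1
  set e : Fin r → ZMod p := fun i => (a i : ZMod p) * (n : ZMod p)⁻¹ with he
  have hprod : ∀ i, ((x i : ZMod p) * (y i : ZMod p)) *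
      ∏ j ∈ univ.erase i, ((a i : ZMod p) - (a j : ZMod p)) = κ := by
    intro i
    have := congrArg (fun z : ℤ => (z : ZMod p)) (hxy i)
    simp only [Int.cast_mul, Int.cast_prod, Int.cast_sub] at this
    exact this
  have hpne : ∀ i, ∏ j ∈ univ.erase i, ((a i : ZMod p) - (a j : ZMod p)) ≠ 0 := fun i h0 => by
    have := hprod i
    rw [h0, mul_zero] at this
    exact hκ0 this.symm
  have hinj : Function.Injective e := by
    intro i j hij
    by_contra hne
    have h1 : (a i : ZMod p) - a j = 0 := by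
      rw [he] at hij
      have := mul_right_cancel₀ (inv_ne_zero hn0) hij
      rw [this, sub_self]
    exact hpne i (prod_eq_zero (mem_erase.mpr ⟨Ne.symm hne, mem_univ j⟩) h1)
  have hw : (κ : ZMod p) * ((n : ZMod p) ^ r)⁻¹ ≠ 0 :=
    mul_ne_zero hκ0 (inv_ne_zero (pow_ne_zero _ hn0))
  refine card_real (e := e) hd hinj (fun l => Matrix.of fun i j => (c l i j : ZMod p) * (n : ZMod p)⁻¹)
    (fun i => (x i : ZMod p) * (n : ZMod p)⁻¹) (fun j => (y j : ZMod p)) hw ?_ (i₁ := i₁) (i₂ := i₂)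
    hN ?_ ?_ hpM hpN' ?_ T ?_
  · intro i
    have h1 : Lagrange.nodalWeight univ e i = (n : ZMod p) ^ (r - 1) *
        (∏ j ∈ univ.erase i, ((a i : ZMod p) - (a j : ZMod p)))⁻¹ := by
      unfold Lagrange.nodalWeight
      rw [← Finset.prod_inv_distrib]
      have h2 : ((n : ZMod p) ^ (r - 1)) = ∏ _j ∈ univ.erase i, (n : ZMod p) := by
        rw [prod_const, card_erase_of_mem (mem_univ i), card_univ, Fintype.card_fin]
      rw [h2, ← prod_mul_distrib]
      refine prod_congr rfl fun j _ => ?_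
      rw [he]
      simp only
      rw [← sub_mul, mul_inv, inv_inv, mul_comm]
    rw [h1]
    have h2 := hprod i
    have h3 := hpne i
    have hr : r = (r - 1) + 1 := by have := i.2; omega
    have h4 : (n : ZMod p) ^ r = (n : ZMod p) ^ (r - 1) * n := by
      conv_lhs => rw [hr]
      rw [pow_succ]
    rw [h4, ← h2]
    field_simp
  · rw [← hden]; exact δ.reduced
  · rw [Int.abs_eq_natAbs]
  · have h1 := congrArg (fun z : ℤ => (z : ZMod p)) hcross
    simp only [Int.cast_mul, Int.cast_natCast, Int.cast_sub] at h1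
    rw [he]
    simp only
    rw [← sub_mul, ← mul_assoc, h1, mul_assoc, mul_inv_cancel₀ hn0, mul_one]
  · intro t ht
    obtain ⟨q, ⟨hq1, hq2⟩, hq3⟩ := hT t ht
    have h1 : (Matrix.of fun i j => (cq (fun l => Matrix.of fun i j => (c l i j : ZMod p) *
        (n : ZMod p)⁻¹) (fun i => (x i : ZMod p) * (n : ZMod p)⁻¹) (fun j => (y j : ZMod p))
          i j).eval t) = res1 n c x y q p := by
      ext i j
      unfold cq res1
      simp only [Matrix.of_apply, Polynomial.eval_add, Polynomial.eval_finsetSum,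
        Polynomial.eval_mul, Polynomial.eval_C, Polynomial.eval_pow, Polynomial.eval_X]
      have h2 : (q.num : ZMod p) * (q.den : ZMod p)⁻¹ = t := hq3
      rw [h2, add_mul, sum_mul]
      congr 1
      · exact sum_congr rfl fun l _ => by ring
      · ring
    rw [h1]
    exact hq2

/-- The primes dividing an integer carry little weight. -/
lemma den_sum {ε : ℝ} (hε : 0 < ε) : ∃ K : ℝ, 0 ≤ K ∧ ∀ m : ℕ, 0 < m → ∀ Y : ℕ,
    ∑ p ∈ (Icc 1 Y).filter (fun p => p.Prime ∧ p ∣ m), Real.log p / p ≤ K + ε * Real.log m := by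
  obtain ⟨K₀, hK₀⟩ := exists_nat_gt (1 / ε)
  have hnn : ∀ p : ℕ, 0 ≤ Real.log p / p := fun p =>
    div_nonneg (Real.log_natCast_nonneg p) (Nat.cast_nonneg p)
  refine ⟨∑ p ∈ Icc 1 K₀, Real.log p / p, sum_nonneg fun p _ => hnn p, fun m hm Y => ?_⟩
  rw [← sum_filter_add_sum_filter_not _ (fun p => p ≤ K₀)]
  refine add_le_add ?_ ?_
  · refine sum_le_sum_of_subset_of_nonneg ?_ fun p _ _ => hnn p
    intro p hp
    rw [mem_filter, mem_filter, mem_Icc] at hp
    rw [mem_Icc]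
    exact ⟨hp.1.1.1, hp.2⟩
  · have h1 : ∀ p ∈ ((Icc 1 Y).filter (fun p => p.Prime ∧ p ∣ m)).filter (fun p => ¬ p ≤ K₀),
        Real.log p / p ≤ ε * Real.log p := by
      intro p hp
      rw [mem_filter, mem_filter, mem_Icc] at hp
      have h2 : (K₀ : ℝ) < p := by exact_mod_cast (not_le.mp hp.2)
      have hp0 : (0 : ℝ) < p := by exact_mod_cast (by omega : 0 < p)
      rw [div_le_iff₀ hp0]
      have h3 : 1 < ε * p := by
        have h4 : 1 / ε < p := hK₀.trans h2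
        rw [div_lt_iff₀ hε] at h4
        linarith
      nlinarith [Real.log_natCast_nonneg p]
    refine (sum_le_sum h1).trans ?_
    rw [← mul_sum]
    refine mul_le_mul_of_nonneg_left ?_ hε.le
    calc ∑ p ∈ ((Icc 1 Y).filter (fun p => p.Prime ∧ p ∣ m)).filter (fun p => ¬ p ≤ K₀), Real.log p
        ≤ ∑ p ∈ m.primeFactors, Real.log p := by
          refine sum_le_sum_of_subset_of_nonneg ?_ fun p _ _ => Real.log_natCast_nonneg p
          intro p hp
          rw [mem_filter, mem_filter, mem_Icc] at hp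
          exact Nat.mem_primeFactors.mpr ⟨hp.1.2.1, hp.1.2.2, hm.ne'⟩
      _ = Real.log (∏ p ∈ m.primeFactors, (p : ℝ)) := by
          rw [Real.log_prod]
          intro p hp
          have := (Nat.prime_of_mem_primeFactors hp).pos
          exact_mod_cast this.ne'
      _ ≤ Real.log m := by
          refine Real.log_le_log ?_ ?_
          · refine prod_pos fun p hp => ?_
            exact_mod_cast (Nat.prime_of_mem_primeFactors hp).pos
          · have h5 : ((∏ p ∈ m.primeFactors, p : ℕ) : ℝ) ≤ m :=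
              Nat.cast_le.mpr (Nat.le_of_dvd hm (Nat.prod_primeFactors_dvd m))
            rwa [Nat.cast_prod] at h5

open Classical in
/-- The weight of the primes for which the `p`-curvature is not zero. -/
noncomputable def bad (n : ℕ) (a : Fin r → ℤ) (c : Fin d → Matrix (Fin r) (Fin r) ℤ)
    (x y : Fin r → ℤ) (q : ℚ) (Y : ℝ) : ℝ :=
  ∑ p ∈ Icc 1 ⌊Y⌋₊ with p.Prime ∧ ¬ p ∣ q.den ∧ ¬ CurvZero p (res0 n a p) (res1 n c x y q p),
    Real.log p / p

theorem final (hd : 1 ≤ d) {N : ℕ} (hN : 2 ≤ N) {θ : ℝ} (hθ : 1 < avg N (Gf r d N) * θ) :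
    ∃ η : ℝ, 0 < η ∧ ∀ (n : ℕ) (_ : 0 < n) (a x y : Fin r → ℤ) (κ : ℤ) (_ : κ ≠ 0)
      (_ : ∀ i, x i * y i * ∏ j ∈ univ.erase i, (a i - a j) = κ) (i₁ i₂ : Fin r)
      (_ : (((a i₂ - a i₁ : ℤ) : ℚ) / n).den = N), ∃ C : ℝ,
      ∀ (c : Fin d → Matrix (Fin r) (Fin r) ℤ) (X Z : ℝ), 1 ≤ X → 1 ≤ Z → 2 ≤ X * Z →
        (Set.ncard {q : ℚ | |(q.num : ℝ)| ≤ X ∧ (q.den : ℝ) ≤ Z ∧
          bad n a c x y q ((X * Z) ^ θ) ≤ η * Real.log (X * Z)} : ℝ) ≤ C * (X * Z) ^ θ := by
  classical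
  have hNe : NeZero N := ⟨by omega⟩
  have havg0 : 0 ≤ avg N (Gf r d N) := by
    unfold avg
    refine div_nonneg (sum_nonneg fun v _ => ?_) (Nat.cast_nonneg _)
    exact zero_le_one.trans (Gf_ge_one r d N v)
  have hθ0 : 0 < θ := by
    by_contra h0
    push Not at h0
    have := mul_nonpos_of_nonneg_of_nonpos havg0 h0
    linarith
  obtain ⟨η, hη, h⟩ := core (N := N) (f := Gf r d N) (Gf_ge_one r d N)
    (fun v => Gf_le (n := r) (N := N) (v := v) hd) hθ0 hθ
  refine ⟨η / 2, by positivity, fun n hn a x y κ hκ hxy i₁ i₂ hden => ?_⟩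
  obtain ⟨K, hK0, hK⟩ := den_sum (ε := η / 4) (by positivity)
  set δ : ℚ := ((a i₂ - a i₁ : ℤ) : ℚ) / n with hδ
  obtain ⟨C, hC⟩ := h (max n (max κ.natAbs (max N δ.num.natAbs))) (d * (δ.num.natAbs : ℕ) / N)
  refine ⟨|C| + 3 * Real.exp (4 * K / η), fun c X Z hX hZ hXZ => ?_⟩
  have hcop : δ.num.natAbs.Coprime N := by rw [← hden]; exact δ.reduced
  have hunit : IsUnit (-(δ.num : ZMod N)) := by
    refine IsUnit.neg ?_
    obtain ⟨s, t, hst⟩ : IsCoprime δ.num (N : ℤ) := by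
      rw [Int.isCoprime_iff_nat_coprime]
      simpa using hcop
    have h1 := congrArg (fun z : ℤ => (z : ZMod N)) hst
    simp only [Int.cast_add, Int.cast_mul, Int.cast_natCast, ZMod.natCast_self, mul_zero, add_zero,
      Int.cast_one] at h1
    exact IsUnit.of_mul_eq_one_right _ h1
  obtain ⟨u, hu⟩ := hunit
  have hH0 : (0 : ℝ) < X * Z := by linarith
  have hHθ : (1 : ℝ) ≤ (X * Z) ^ θ := Real.one_le_rpow (by linarith) hθ0.le
  have hmain := hC (fun p q => (q.den : ZMod p) ≠ 0 ∧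
    CurvZero p (res0 n a p) (res1 n c x y q p)) u ?_ X Z hX hZ hXZ
  swap
  · intro p hp hpP
    have hpF : Fact p.Prime := ⟨hp⟩
    refine ⟨fun q hq => hq.1, fun T hT => ?_⟩
    rw [hu]
    have h1 := (le_max_left _ _).trans_lt hpP
    have h2 := (le_max_right _ _).trans_lt hpP
    have h3 := (le_max_left _ _).trans_lt h2
    have h4 := (le_max_right _ _).trans_lt h2
    exact per_prime hd hn hκ hxy hN hden c h1 h3 ((le_max_left _ _).trans_lt h4)
      ((le_max_right _ _).trans_lt h4) T hT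
  have hexp : 0 ≤ 3 * Real.exp (4 * K / η) := by positivity
  by_cases hcase : 4 * K / η ≤ Real.log (X * Z)
  · have hsub : {q : ℚ | |(q.num : ℝ)| ≤ X ∧ (q.den : ℝ) ≤ Z ∧
        bad n a c x y q ((X * Z) ^ θ) ≤ η / 2 * Real.log (X * Z)} ⊆
        {q : ℚ | |(q.num : ℝ)| ≤ X ∧ (q.den : ℝ) ≤ Z ∧
          ∑ p ∈ Icc 1 ⌊(X * Z) ^ θ⌋₊ with p.Prime ∧ ¬ ((q.den : ZMod p) ≠ 0 ∧
            CurvZero p (res0 n a p) (res1 n c x y q p)), Real.log p / p ≤
              η * Real.log (X * Z)} := by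
      rintro q ⟨hq1, hq2, hq3⟩
      refine ⟨hq1, hq2, ?_⟩
      have h5 := hK q.den q.den_pos ⌊(X * Z) ^ θ⌋₊
      have hden1 : (1 : ℝ) ≤ q.den := by exact_mod_cast q.den_pos
      have h6 : Real.log q.den ≤ Real.log (X * Z) := by
        refine Real.log_le_log (by linarith) (hq2.trans ?_)
        nlinarith
      have h7 : K ≤ η / 4 * Real.log (X * Z) := by
        rw [div_le_iff₀ hη] at hcase
        linarith
      have h8 : ∑ p ∈ Icc 1 ⌊(X * Z) ^ θ⌋₊ with p.Prime ∧ ¬ ((q.den : ZMod p) ≠ 0 ∧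
            CurvZero p (res0 n a p) (res1 n c x y q p)), Real.log p / p ≤
          bad n a c x y q ((X * Z) ^ θ) +
          ∑ p ∈ (Icc 1 ⌊(X * Z) ^ θ⌋₊).filter (fun p => p.Prime ∧ p ∣ q.den), Real.log p / p := by
        unfold bad
        have hnn : ∀ p : ℕ, 0 ≤ Real.log p / p := fun p =>
          div_nonneg (Real.log_natCast_nonneg p) (Nat.cast_nonneg p)
        rw [← sum_union_inter]
        refine le_trans ?_ (le_add_of_nonneg_right (sum_nonneg fun p _ => hnn p))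
        refine sum_le_sum_of_subset_of_nonneg ?_ fun p _ _ => hnn p
        intro p hp
        rw [mem_filter] at hp
        rw [mem_union, mem_filter, mem_filter]
        by_cases hdv : p ∣ q.den
        · exact Or.inr ⟨hp.1, hp.2.1, hdv⟩
        · refine Or.inl ⟨hp.1, hp.2.1, hdv, fun h0 => hp.2.2 ⟨?_, h0⟩⟩
          rwa [ne_eq, ZMod.natCast_eq_zero_iff]
      have h9 : (η / 4) * Real.log q.den ≤ η / 4 * Real.log (X * Z) :=
        mul_le_mul_of_nonneg_left h6 (by positivity)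
      linarith
    have hfin : {q : ℚ | |(q.num : ℝ)| ≤ X ∧ (q.den : ℝ) ≤ Z ∧
          ∑ p ∈ Icc 1 ⌊(X * Z) ^ θ⌋₊ with p.Prime ∧ ¬ ((q.den : ZMod p) ≠ 0 ∧
            CurvZero p (res0 n a p) (res1 n c x y q p)), Real.log p / p ≤
              η * Real.log (X * Z)}.Finite :=
      (box_finite (X := X) (Z := Z)).subset fun q hq => ⟨hq.1, hq.2.1⟩
    have h10 := Set.ncard_le_ncard hsub hfin
    calc (Set.ncard {q : ℚ | |(q.num : ℝ)| ≤ X ∧ (q.den : ℝ) ≤ Z ∧
          bad n a c x y q ((X * Z) ^ θ) ≤ η / 2 * Real.log (X * Z)} : ℝ)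
        ≤ C * (X * Z) ^ θ := by
          refine le_trans (Nat.cast_le.mpr h10) (le_trans (le_of_eq ?_) hmain)
          congr!
      _ ≤ _ := by
          refine mul_le_mul_of_nonneg_right ?_ (by linarith)
          have := le_abs_self C
          linarith
  · push Not at hcase
    have hsub : {q : ℚ | |(q.num : ℝ)| ≤ X ∧ (q.den : ℝ) ≤ Z ∧
        bad n a c x y q ((X * Z) ^ θ) ≤ η / 2 * Real.log (X * Z)} ⊆ box X Z :=
      fun q hq => ⟨hq.1, hq.2.1⟩
    have h10 := Set.ncard_le_ncard hsub box_finite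
    have h11 := box_card hX hZ
    have h12 : X * Z ≤ Real.exp (4 * K / η) := by
      rw [← Real.log_le_iff_le_exp hH0]
      exact hcase.le
    calc (Set.ncard {q : ℚ | |(q.num : ℝ)| ≤ X ∧ (q.den : ℝ) ≤ Z ∧
          bad n a c x y q ((X * Z) ^ θ) ≤ η / 2 * Real.log (X * Z)} : ℝ)
        ≤ (box X Z).ncard := by exact_mod_cast h10
      _ ≤ 3 * (X * Z) := h11
      _ ≤ 3 * Real.exp (4 * K / η) * 1 := by linarith
      _ ≤ 3 * Real.exp (4 * K / η) * (X * Z) ^ θ := mul_le_mul_of_nonneg_left hHθ hexp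
      _ ≤ _ := by
          refine mul_le_mul_of_nonneg_right ?_ (by linarith)
          have := abs_nonneg C
          linarith

end Pool.Agent.U927.TP
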