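import Mathlib
import Pool.Agent.U927.TP.Main

set_option autoImplicit false

/-!
Families through an Euler system: the first resonance polynomial has a nonzero linear term.
-/

namespace Pool.Agent.U927.TP

open Finset Pool.Agent.U927.PC

section rec

variable {F : Type*} [Field F] {r d : ℕ}

/-- The second residue as a polynomial without constant term in the parameter. -/
noncomputable def cz (c : Fin d → Matrix (Fin r) (Fin r) F) :
    Matrix (Fin r) (Fin r) (Polynomial F) :=
  Matrix.of fun i j => ∑ l : Fin d, Polynomial.C (c l i j) * Polynomial.X ^ ((l : ℕ) + 1)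

lemma cz_deg (c : Fin d → Matrix (Fin r) (Fin r) F) (i j : Fin r) :
    (cz c i j).natDegree ≤ d := by
  unfold cz
  rw [Matrix.of_apply]
  refine Polynomial.natDegree_sum_le_of_forall_le _ _ fun l _ => ?_
  exact (Polynomial.natDegree_C_mul_X_pow_le _ _).trans l.2

lemma cz_zero (c : Fin d → Matrix (Fin r) (Fin r) F) (i j : Fin r) : (cz c i j).coeff 0 = 0 := by
  unfold cz
  rw [Matrix.of_apply, Polynomial.finsetSum_coeff]
  refine Finset.sum_eq_zero fun l _ => ?_
  rw [Polynomial.coeff_C_mul_X_pow, if_neg (by omega)]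

lemma cz_one (hd : 1 ≤ d) (c : Fin d → Matrix (Fin r) (Fin r) F) (i j : Fin r) :
    (cz c i j).coeff 1 = c ⟨0, hd⟩ i j := by
  unfold cz
  rw [Matrix.of_apply, Polynomial.finsetSum_coeff, Finset.sum_eq_single ⟨0, hd⟩]
  · rw [Polynomial.coeff_C_mul_X_pow]
    simp
  · intro l _ hl
    rw [Polynomial.coeff_C_mul_X_pow, if_neg]
    intro h0
    exact hl (Fin.ext (by simp only; omega))
  · intro h0
    exact absurd (mem_univ _) h0

lemma S_zero {e : Fin r → F} (c : Fin d → Matrix (Fin r) (Fin r) F) {i₁ : Fin r} (k : ℕ) (i : Fin r) :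
    (S e (cz c) i₁ k i).coeff 0 = if i = i₁ then 1 else 0 := by
  induction k generalizing i with
  | zero =>
    unfold S
    split_ifs <;> simp
  | succ k ih =>
    rw [S_succ, Polynomial.coeff_sub, Polynomial.coeff_C_mul, Polynomial.finsetSum_coeff, ih]
    rw [Finset.sum_eq_zero, mul_zero, sub_zero]
    intro j _
    rw [Polynomial.mul_coeff_zero, cz_zero, zero_mul]

theorem res_ne' (hd : 1 ≤ d) {e : Fin r → F} (c : Fin d → Matrix (Fin r) (Fin r) F) {i₁ : Fin r}
    {g : ℕ} {j : Fin r} (hj : c ⟨0, hd⟩ j i₁ ≠ 0) :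
    (∑ l, cz c j l * S e (cz c) i₁ g l) ≠ 0 ∧
      (∑ l, cz c j l * S e (cz c) i₁ g l).natDegree ≤ d * (g + 1) := by
  refine ⟨fun h0 => ?_, ?_⟩
  · have h1 := congrArg (fun q => Polynomial.coeff q 1) h0
    simp only [Polynomial.finsetSum_coeff, Polynomial.coeff_zero] at h1
    rw [Finset.sum_eq_single i₁] at h1
    · rw [Polynomial.mul_coeff_one, cz_zero, zero_mul, zero_add, cz_one hd, S_zero, if_pos rfl,
        mul_one] at h1
      exact hj h1
    · intro l _ hl
      rw [Polynomial.mul_coeff_one, cz_zero, zero_mul, zero_add, S_zero, if_neg hl, mul_zero]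
    · intro h2
      exact absurd (mem_univ _) h2
  · refine Polynomial.natDegree_sum_le_of_forall_le _ _ fun l _ => ?_
    refine Polynomial.natDegree_mul_le.trans ?_
    rw [mul_add, mul_one, add_comm]
    exact add_le_add (S_deg (cz_deg c) g l) (cz_deg c j l)

end rec

variable {p : ℕ} [hp : Fact p.Prime] {r d : ℕ}

/-- The bound for one exponent. -/
theorem card_le_gp' (hd : 1 ≤ d) {e : Fin r → ZMod p} (he : Function.Injective e)
    (c : Fin d → Matrix (Fin r) (Fin r) (ZMod p))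
    (hoff : ∀ i j, i ≠ j → c ⟨0, hd⟩ i j ≠ 0) (i₁ : Fin r) (hex : ∃ i, i ≠ i₁)
    (T : Finset (ZMod p)) (hT : ∀ t ∈ T, CurvZero p (Matrix.diagonal e)
      (Matrix.of fun i j => (cz c i j).eval t)) : T.card ≤ d * gp e i₁ := by
  classical
  obtain ⟨hg0, j, hj⟩ := gp_spec e i₁
  have hji : j ≠ i₁ := by
    rintro rfl
    obtain ⟨i, hi⟩ := hex
    have h1 : e i - e j ≠ 0 := fun h0 => hi (he (sub_eq_zero.mp h0))
    have h2 : 0 < (e i - e j).val := by
      rw [Nat.pos_iff_ne_zero, ne_eq, ZMod.val_eq_zero]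
      exact h1
    have h3 : gp e j ≤ (e i - e j).val :=
      gp_le h2 ⟨i, by rw [ZMod.natCast_zmod_val]; ring⟩
    have h4 : ((gp e j : ℕ) : ZMod p) = 0 := by linear_combination -hj
    rw [ZMod.natCast_eq_zero_iff] at h4
    have h5 := Nat.le_of_dvd hg0 h4
    have h6 := ZMod.val_lt (e i - e j)
    omega
  obtain ⟨m, hm⟩ : ∃ m, gp e i₁ = m + 1 := ⟨gp e i₁ - 1, by omega⟩
  rw [hm] at hj ⊢
  have hlt : ∀ k < m, ∀ i, (k : ZMod p) + 1 + e i₁ - e i ≠ 0 := by
    intro k hk i h0
    have h1 : e i = e i₁ + ((k + 1 : ℕ) : ZMod p) := by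
      push_cast
      linear_combination -h0
    have := gp_le (e := e) (i := i₁) (Nat.succ_pos k) ⟨i, h1⟩
    omega
  obtain ⟨hne, hdeg⟩ := res_ne' (e := e) (i₁ := i₁) (g := m) hd c (hoff j i₁ hji)
  have hsub : T ⊆ (∑ l, cz c j l * S e (cz c) i₁ m l).roots.toFinset := by
    intro t ht
    rw [Multiset.mem_toFinset, Polynomial.mem_roots hne, Polynomial.IsRoot.def]
    obtain ⟨lam, hlam, s, hs0, hs⟩ := exists_sol e _ i₁ (hT t ht)
    refine res_root (e := e) (c := cz c) hlam hs0 ?_ hlt ?_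
    · intro k i
      have := hs k i
      simp only [Matrix.of_apply] at this
      exact this
    · rw [hj]; push_cast; ring
  calc T.card ≤ _ := card_le_card hsub
    _ ≤ _ := Multiset.toFinset_card_le _
    _ ≤ _ := Polynomial.card_roots' _
    _ ≤ _ := hdeg

/-- The bound in terms of the class of `p`. -/
theorem card_real' (hd : 1 ≤ d) {e : Fin r → ZMod p} (he : Function.Injective e)
    (c : Fin d → Matrix (Fin r) (Fin r) (ZMod p))
    (hoff : ∀ i j, i ≠ j → c ⟨0, hd⟩ i j ≠ 0) (hex : ∀ j : Fin r, ∃ i, i ≠ j) {i₁ i₂ : Fin r}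
    {N : ℕ} (hN : 2 ≤ N) {u : ℤ} (hcop : u.natAbs.Coprime N) {M : ℕ} (huM : |u| ≤ M) (hpM : M < p)
    (hpN : ¬ p ∣ N) (hx : (N : ZMod p) * (e i₂ - e i₁) = u) (T : Finset (ZMod p))
    (hT : ∀ t ∈ T, CurvZero p (Matrix.diagonal e)
      (Matrix.of fun i j => (cz c i j).eval t)) :
    (T.card : ℝ) ≤ p / Gf r d N (-(u : ZMod N) * (p : ZMod N)⁻¹).val + d * M / N := by
  obtain ⟨hg0, hgw, hwN⟩ := gap hN hcop huM hpM hpN hx
  set g₀ := (e i₂ - e i₁).val with hg₀
  set w' := (-(u : ZMod N) * (p : ZMod N)⁻¹).val with hw'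
  have hglt : g₀ < p := ZMod.val_lt _
  have hgcast : ((g₀ : ℕ) : ZMod p) = e i₂ - e i₁ := ZMod.natCast_zmod_val _
  have hall := fun i => card_le_gp' hd he c hoff i (hex i) T hT
  have h1 : T.card ≤ d * g₀ := by
    refine (hall i₁).trans (Nat.mul_le_mul_left d (gp_le hg0 ⟨i₂, ?_⟩))
    rw [hgcast]; ring
  have h2 : T.card ≤ d * (p - g₀) := by
    refine (hall i₂).trans (Nat.mul_le_mul_left d (gp_le (by omega) ⟨i₁, ?_⟩))
    rw [Nat.cast_sub hglt.le, hgcast, ZMod.natCast_self]; ring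
  have h3 : T.card * r ≤ d * p := by
    have h5 : ∑ _i : Fin r, T.card ≤ ∑ i, d * gp e i := sum_le_sum fun i _ => hall i
    rw [sum_const, card_univ, Fintype.card_fin, smul_eq_mul, ← mul_sum, mul_comm] at h5
    exact h5.trans (Nat.mul_le_mul_left d (sum_gp he))
  have h4 : T.card ≤ p := by
    have := Finset.card_le_univ T
    rwa [ZMod.card] at this
  have hdR : (1 : ℝ) ≤ d := by exact_mod_cast hd
  have hNR : (2 : ℝ) ≤ N := by exact_mod_cast hN
  have hMR : (0 : ℝ) ≤ M := Nat.cast_nonneg M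
  have hpR : (0 : ℝ) < p := by exact_mod_cast hp.out.pos
  have hE : (0 : ℝ) ≤ d * M / N := by positivity
  have huR : |(u : ℝ)| ≤ M := by exact_mod_cast huM
  have huR' := abs_le.mp huR
  have hgR : (N : ℝ) * g₀ = u + p * w' := by exact_mod_cast hgw
  have hwNR : (w' : ℝ) ≤ N := by exact_mod_cast hwN.le
  have h5 : (T.card : ℝ) ≤ d * (M + p * w') / N := by
    rw [le_div_iff₀ (by linarith)]
    have h1' : (T.card : ℝ) ≤ d * g₀ := by exact_mod_cast h1
    calc (T.card : ℝ) * N ≤ d * g₀ * N := by gcongr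
      _ = d * (N * g₀) := by ring
      _ = d * (u + p * w') := by rw [hgR]
      _ ≤ d * (M + p * w') := by gcongr; exact huR'.2
  have h6 : (T.card : ℝ) ≤ d * (M + p * (N - w')) / N := by
    rw [le_div_iff₀ (by linarith)]
    have h2' : (T.card : ℝ) ≤ d * (p - g₀) := by
      have : ((p - g₀ : ℕ) : ℝ) = p - g₀ := by rw [Nat.cast_sub hglt.le]
      rw [← this]
      exact_mod_cast h2
    calc (T.card : ℝ) * N ≤ d * (p - g₀) * N := by gcongr
      _ = d * (p * N - N * g₀) := by ring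
      _ = d * (p * N - (u + p * w')) := by rw [hgR]
      _ ≤ d * (M + p * (N - w')) := by
        refine mul_le_mul_of_nonneg_left ?_ (by linarith)
        linarith [huR'.1]
  have h7 : (T.card : ℝ) ≤ d * (M + p * (min w' (N - w') : ℕ)) / N := by
    rcases min_choice w' (N - w') with hm | hm
    · rw [hm]; exact h5
    · rw [hm, Nat.cast_sub hwN.le]; exact h6
  have hw0 : 0 < w' := by
    rcases Nat.eq_zero_or_pos w' with h0 | h0
    · exfalso
      rw [h0] at hgw
      have h8 : (N : ℤ) ∣ u := ⟨g₀, by push_cast at hgw; linarith⟩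
      have h9 : N ∣ u.natAbs.gcd N := Nat.dvd_gcd (Int.natCast_dvd.mp h8) dvd_rfl
      rw [Nat.Coprime] at hcop
      rw [hcop] at h9
      have := Nat.dvd_one.mp h9
      omega
    · exact h0
  have hmin : 0 < min w' (N - w') := by
    rw [lt_min_iff]; omega
  have hminR : (0 : ℝ) < (min w' (N - w') : ℕ) := by exact_mod_cast hmin
  unfold Gf
  rcases max_choice (max 1 ((r : ℝ) / d)) ((N : ℝ) / (d * (min w' (N - w') : ℕ))) with hm | hm
  · rw [hm]
    rcases max_choice 1 ((r : ℝ) / d) with hm' | hm'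
    · rw [hm', div_one]
      have : (T.card : ℝ) ≤ p := by exact_mod_cast h4
      linarith
    · have h8 : (1 : ℝ) ≤ r / d := by rw [← hm']; exact le_max_left _ _
      rw [hm']
      have h9 : (0 : ℝ) < r := by
        by_contra h0
        push Not at h0
        have : (r : ℝ) / d ≤ 0 := div_nonpos_of_nonpos_of_nonneg h0 (by linarith)
        linarith
      have h10 : (T.card : ℝ) ≤ p / (r / d) := by
        rw [div_div_eq_mul_div, le_div_iff₀ h9, mul_comm (p : ℝ)]
        exact_mod_cast h3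
      linarith
  · rw [hm]
    refine h7.trans_eq ?_
    have hd0 : (d : ℝ) ≠ 0 := by linarith
    have hN0 : (N : ℝ) ≠ 0 := by linarith
    field_simp
    ring

end Pool.Agent.U927.TP
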