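import Mathlib
import Pool.Agent.U927.TP.Gap2

set_option autoImplicit false

/-!
Families through an Euler system: the main bound.
-/

namespace Pool.Agent.U927.TP

open Finset Pool.Agent.U927.PC

variable {r d : ℕ}

/-- The residue at `1` modulo `p`. -/
def res2 (n : ℕ) (c : Fin d → Matrix (Fin r) (Fin r) ℤ) (q : ℚ) (p : ℕ) :
    Matrix (Fin r) (Fin r) (ZMod p) :=
  Matrix.of fun i j => (∑ l : Fin d, ((q.num : ZMod p) * (q.den : ZMod p)⁻¹) ^ ((l : ℕ) + 1) *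
    (c l i j : ZMod p)) * (n : ZMod p)⁻¹

/-- A bound for the exceptional primes. -/
def Bd (a : Fin r → ℤ) (c : Matrix (Fin r) (Fin r) ℤ) : ℕ :=
  ∑ i, ∑ j, ((a i - a j).natAbs + (c i j).natAbs)

lemma le_Bd (a : Fin r → ℤ) (c : Matrix (Fin r) (Fin r) ℤ) (i j : Fin r) :
    (a i - a j).natAbs + (c i j).natAbs ≤ Bd a c := by
  unfold Bd
  refine le_trans ?_ (single_le_sum (f := fun i => ∑ j, ((a i - a j).natAbs + (c i j).natAbs))
    (fun _ _ => Nat.zero_le _) (mem_univ i))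
  exact single_le_sum (f := fun j => (a i - a j).natAbs + (c i j).natAbs)
    (fun _ _ => Nat.zero_le _) (mem_univ j)

theorem per_prime' {p : ℕ} [hp : Fact p.Prime] (hd : 1 ≤ d) {n : ℕ} (hn : 0 < n) {a : Fin r → ℤ}
    (ha : Function.Injective a) {i₁ i₂ : Fin r}
    {N : ℕ} (hN : 2 ≤ N) (hden : (((a i₂ - a i₁ : ℤ) : ℚ) / n).den = N)
    (c : Fin d → Matrix (Fin r) (Fin r) ℤ) (hoff : ∀ i j, i ≠ j → c ⟨0, hd⟩ i j ≠ 0)
    (hpn : n < p) (hpB : Bd a (c ⟨0, hd⟩) < p) (hpN : N < p)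
    (hpM : (((a i₂ - a i₁ : ℤ) : ℚ) / n).num.natAbs < p) (T : Finset (ZMod p))
    (hT : ∀ t ∈ T, ∃ q : ℚ, ((q.den : ZMod p) ≠ 0 ∧ CurvZero p (res0 n a p) (res2 n c q p)) ∧
      red p q = t) :
    (T.card : ℝ) ≤ p / Gf r d N
      (-((((a i₂ - a i₁ : ℤ) : ℚ) / n).num : ZMod N) * (p : ZMod N)⁻¹).val +
      d * ((((a i₂ - a i₁ : ℤ) : ℚ) / n).num.natAbs : ℕ) / N := by
  have hn0 : (n : ZMod p) ≠ 0 := by
    intro h0
    rw [ZMod.natCast_eq_zero_iff] at h0
    exact absurd (Nat.le_of_dvd hn h0) (by omega)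
  have hint : ∀ z : ℤ, z ≠ 0 → z.natAbs < p → (z : ZMod p) ≠ 0 := by
    intro z hz hzp h0
    rw [ZMod.intCast_zmod_eq_zero_iff_dvd, Int.natCast_dvd] at h0
    exact absurd (Nat.le_of_dvd (Int.natAbs_pos.mpr hz) h0) (by omega)
  have hpN' : ¬ p ∣ N := fun h0 => absurd (Nat.le_of_dvd (by omega) h0) (by omega)
  set δ : ℚ := ((a i₂ - a i₁ : ℤ) : ℚ) / n with hδ
  have hnQ : (n : ℚ) ≠ 0 := by exact_mod_cast hn.ne'
  have hcross : (N : ℤ) * (a i₂ - a i₁) = δ.num * n := by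
    have h1 : (N : ℚ) * ((a i₂ - a i₁ : ℤ) : ℚ) = δ.num * n := by
      have h2 := Rat.mul_den_eq_num δ
      rw [hden] at h2
      rw [← h2, hδ]
      field_simp
    exact_mod_cast h1
  set e : Fin r → ZMod p := fun i => (a i : ZMod p) * (n : ZMod p)⁻¹ with he
  have hinj : Function.Injective e := by
    intro i j hij
    by_contra hne
    have h1 : (a i : ZMod p) = a j := by
      rw [he] at hij
      exact mul_right_cancel₀ (inv_ne_zero hn0) hij
    refine hint (a i - a j) (sub_ne_zero.mpr fun h => hne (ha h)) ?_ ?_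
    · have := le_Bd a (c ⟨0, hd⟩) i j
      omega
    · push_cast
      rw [h1, sub_self]
  have hne12 : i₁ ≠ i₂ := by
    rintro rfl
    rw [sub_self, Int.cast_zero, zero_div] at hδ
    rw [hδ] at hden
    simp at hden
    omega
  have hex : ∀ j : Fin r, ∃ i, i ≠ j := by
    intro j
    by_cases h : i₁ = j
    · exact ⟨i₂, fun h' => hne12 (h.trans h'.symm)⟩
    · exact ⟨i₁, h⟩
  refine card_real' (e := e) hd hinj
    (fun l => Matrix.of fun i j => (c l i j : ZMod p) * (n : ZMod p)⁻¹) ?_ hex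
    (i₁ := i₁) (i₂ := i₂) hN ?_ ?_ hpM hpN' ?_ T ?_
  · intro i j hij
    refine mul_ne_zero (hint _ (hoff i j hij) ?_) (inv_ne_zero hn0)
    have := le_Bd a (c ⟨0, hd⟩) i j
    omega
  · rw [← hden]; exact δ.reduced
  · rw [Int.abs_eq_natAbs]
  · have h1 := congrArg (fun z : ℤ => (z : ZMod p)) hcross
    simp only [Int.cast_mul, Int.cast_natCast, Int.cast_sub] at h1
    rw [he]
    simp only
    rw [← sub_mul, ← mul_assoc, h1, mul_assoc, mul_inv_cancel₀ hn0, mul_one]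
  · intro t ht
    obtain ⟨q, ⟨hq1, hq2⟩, hq3⟩ := hT t ht
    have h1 : (Matrix.of fun i j => (cz (fun l => Matrix.of fun i j => (c l i j : ZMod p) *
        (n : ZMod p)⁻¹) i j).eval t) = res2 n c q p := by
      ext i j
      unfold cz res2
      simp only [Matrix.of_apply, Polynomial.eval_finsetSum,
        Polynomial.eval_mul, Polynomial.eval_C, Polynomial.eval_pow, Polynomial.eval_X]
      have h2 : (q.num : ZMod p) * (q.den : ZMod p)⁻¹ = t := hq3
      rw [h2, sum_mul]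
      exact sum_congr rfl fun l _ => by ring
    rw [h1]
    exact hq2

open Classical in
/-- The weight of the primes for which the `p`-curvature is not zero. -/
noncomputable def bad2 (n : ℕ) (a : Fin r → ℤ) (c : Fin d → Matrix (Fin r) (Fin r) ℤ)
    (q : ℚ) (Y : ℝ) : ℝ :=
  ∑ p ∈ Icc 1 ⌊Y⌋₊ with p.Prime ∧ ¬ p ∣ q.den ∧ ¬ CurvZero p (res0 n a p) (res2 n c q p),
    Real.log p / p

theorem final2 (hd : 1 ≤ d) {N : ℕ} (hN : 2 ≤ N) {θ : ℝ} (hθ : 1 < avg N (Gf r d N) * θ) :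
    ∃ η : ℝ, 0 < η ∧ ∀ (n : ℕ) (_ : 0 < n) (a : Fin r → ℤ) (_ : Function.Injective a)
      (M : Matrix (Fin r) (Fin r) ℤ) (_ : ∀ i j, i ≠ j → M i j ≠ 0) (i₁ i₂ : Fin r)
      (_ : (((a i₂ - a i₁ : ℤ) : ℚ) / n).den = N), ∃ C : ℝ,
      ∀ (c : Fin d → Matrix (Fin r) (Fin r) ℤ) (_ : c ⟨0, hd⟩ = M) (X Z : ℝ), 1 ≤ X → 1 ≤ Z → 2 ≤ X * Z →
        (Set.ncard {q : ℚ | |(q.num : ℝ)| ≤ X ∧ (q.den : ℝ) ≤ Z ∧
          bad2 n a c q ((X * Z) ^ θ) ≤ η * Real.log (X * Z)} : ℝ) ≤ C * (X * Z) ^ θ := by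
  classical
  have hNe : NeZero N := ⟨by omega⟩
  have havg0 : 0 ≤ avg N (Gf r d N) := by
    unfold avg
    refine div_nonneg (sum_nonneg fun v _ => ?_) (Nat.cast_nonneg _)
    exact zero_le_one.trans (Gf_ge_one r d N v)
  have hθ0 : 0 < θ := by
    by_contra h0
    push Not at h0
    have := mul_nonpos_of_nonneg_of_nonpos havg0 h0
    linarith
  obtain ⟨η, hη, h⟩ := core (N := N) (f := Gf r d N) (Gf_ge_one r d N)
    (fun v => Gf_le (n := r) (N := N) (v := v) hd) hθ0 hθ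
  refine ⟨η / 2, by positivity, fun n hn a ha M hM i₁ i₂ hden => ?_⟩
  obtain ⟨K, hK0, hK⟩ := den_sum (ε := η / 4) (by positivity)
  set δ : ℚ := ((a i₂ - a i₁ : ℤ) : ℚ) / n with hδ
  obtain ⟨C, hC⟩ := h (max n (max (Bd a M) (max N δ.num.natAbs))) (d * (δ.num.natAbs : ℕ) / N)
  refine ⟨|C| + 3 * Real.exp (4 * K / η), fun c hcM X Z hX hZ hXZ => ?_⟩
  have hcop : δ.num.natAbs.Coprime N := by rw [← hden]; exact δ.reduced
  have hunit : IsUnit (-(δ.num : ZMod N)) := by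
    refine IsUnit.neg ?_
    obtain ⟨s, t, hst⟩ : IsCoprime δ.num (N : ℤ) := by
      rw [Int.isCoprime_iff_nat_coprime]
      simpa using hcop
    have h1 := congrArg (fun z : ℤ => (z : ZMod N)) hst
    simp only [Int.cast_add, Int.cast_mul, Int.cast_natCast, ZMod.natCast_self, mul_zero, add_zero,
      Int.cast_one] at h1
    exact IsUnit.of_mul_eq_one_right _ h1
  obtain ⟨u, hu⟩ := hunit
  have hH0 : (0 : ℝ) < X * Z := by linarith
  have hHθ : (1 : ℝ) ≤ (X * Z) ^ θ := Real.one_le_rpow (by linarith) hθ0.le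
  have hmain := hC (fun p q => (q.den : ZMod p) ≠ 0 ∧
    CurvZero p (res0 n a p) (res2 n c q p)) u ?_ X Z hX hZ hXZ
  swap
  · intro p hp hpP
    have hpF : Fact p.Prime := ⟨hp⟩
    refine ⟨fun q hq => hq.1, fun T hT => ?_⟩
    rw [hu]
    have h1 := (le_max_left _ _).trans_lt hpP
    have h2 := (le_max_right _ _).trans_lt hpP
    have h3 := (le_max_left _ _).trans_lt h2
    have h4 := (le_max_right _ _).trans_lt h2
    exact per_prime' hd hn ha hN hden c (by rw [hcM]; exact hM) h1 (by rw [hcM]; exact h3) ((le_max_left _ _).trans_lt h4)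
      ((le_max_right _ _).trans_lt h4) T hT
  have hexp : 0 ≤ 3 * Real.exp (4 * K / η) := by positivity
  by_cases hcase : 4 * K / η ≤ Real.log (X * Z)
  · have hsub : {q : ℚ | |(q.num : ℝ)| ≤ X ∧ (q.den : ℝ) ≤ Z ∧
        bad2 n a c q ((X * Z) ^ θ) ≤ η / 2 * Real.log (X * Z)} ⊆
        {q : ℚ | |(q.num : ℝ)| ≤ X ∧ (q.den : ℝ) ≤ Z ∧
          ∑ p ∈ Icc 1 ⌊(X * Z) ^ θ⌋₊ with p.Prime ∧ ¬ ((q.den : ZMod p) ≠ 0 ∧
            CurvZero p (res0 n a p) (res2 n c q p)), Real.log p / p ≤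
              η * Real.log (X * Z)} := by
      rintro q ⟨hq1, hq2, hq3⟩
      refine ⟨hq1, hq2, ?_⟩
      have h5 := hK q.den q.den_pos ⌊(X * Z) ^ θ⌋₊
      have hden1 : (1 : ℝ) ≤ q.den := by exact_mod_cast q.den_pos
      have h6 : Real.log q.den ≤ Real.log (X * Z) := by
        refine Real.log_le_log (by linarith) (hq2.trans ?_)
        nlinarith
      have h7 : K ≤ η / 4 * Real.log (X * Z) := by
        rw [div_le_iff₀ hη] at hcase
        linarith
      have h8 : ∑ p ∈ Icc 1 ⌊(X * Z) ^ θ⌋₊ with p.Prime ∧ ¬ ((q.den : ZMod p) ≠ 0 ∧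
            CurvZero p (res0 n a p) (res2 n c q p)), Real.log p / p ≤
          bad2 n a c q ((X * Z) ^ θ) +
          ∑ p ∈ (Icc 1 ⌊(X * Z) ^ θ⌋₊).filter (fun p => p.Prime ∧ p ∣ q.den), Real.log p / p := by
        unfold bad2
        have hnn : ∀ p : ℕ, 0 ≤ Real.log p / p := fun p =>
          div_nonneg (Real.log_natCast_nonneg p) (Nat.cast_nonneg p)
        rw [← sum_union_inter]
        refine le_trans ?_ (le_add_of_nonneg_right (sum_nonneg fun p _ => hnn p))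
        refine sum_le_sum_of_subset_of_nonneg ?_ fun p _ _ => hnn p
        intro p hp
        rw [mem_filter] at hp
        rw [mem_union, mem_filter, mem_filter]
        by_cases hdv : p ∣ q.den
        · exact Or.inr ⟨hp.1, hp.2.1, hdv⟩
        · refine Or.inl ⟨hp.1, hp.2.1, hdv, fun h0 => hp.2.2 ⟨?_, h0⟩⟩
          rwa [ne_eq, ZMod.natCast_eq_zero_iff]
      have h9 : (η / 4) * Real.log q.den ≤ η / 4 * Real.log (X * Z) :=
        mul_le_mul_of_nonneg_left h6 (by positivity)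
      linarith
    have hfin : {q : ℚ | |(q.num : ℝ)| ≤ X ∧ (q.den : ℝ) ≤ Z ∧
          ∑ p ∈ Icc 1 ⌊(X * Z) ^ θ⌋₊ with p.Prime ∧ ¬ ((q.den : ZMod p) ≠ 0 ∧
            CurvZero p (res0 n a p) (res2 n c q p)), Real.log p / p ≤
              η * Real.log (X * Z)}.Finite :=
      (box_finite (X := X) (Z := Z)).subset fun q hq => ⟨hq.1, hq.2.1⟩
    have h10 := Set.ncard_le_ncard hsub hfin
    calc (Set.ncard {q : ℚ | |(q.num : ℝ)| ≤ X ∧ (q.den : ℝ) ≤ Z ∧
          bad2 n a c q ((X * Z) ^ θ) ≤ η / 2 * Real.log (X * Z)} : ℝ)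
        ≤ C * (X * Z) ^ θ := by
          refine le_trans (Nat.cast_le.mpr h10) (le_trans (le_of_eq ?_) hmain)
          congr!
      _ ≤ _ := by
          refine mul_le_mul_of_nonneg_right ?_ (by linarith)
          have := le_abs_self C
          linarith
  · push Not at hcase
    have hsub : {q : ℚ | |(q.num : ℝ)| ≤ X ∧ (q.den : ℝ) ≤ Z ∧
        bad2 n a c q ((X * Z) ^ θ) ≤ η / 2 * Real.log (X * Z)} ⊆ box X Z :=
      fun q hq => ⟨hq.1, hq.2.1⟩
    have h10 := Set.ncard_le_ncard hsub box_finite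
    have h11 := box_card hX hZ
    have h12 : X * Z ≤ Real.exp (4 * K / η) := by
      rw [← Real.log_le_iff_le_exp hH0]
      exact hcase.le
    calc (Set.ncard {q : ℚ | |(q.num : ℝ)| ≤ X ∧ (q.den : ℝ) ≤ Z ∧
          bad2 n a c q ((X * Z) ^ θ) ≤ η / 2 * Real.log (X * Z)} : ℝ)
        ≤ (box X Z).ncard := by exact_mod_cast h10
      _ ≤ 3 * (X * Z) := h11
      _ ≤ 3 * Real.exp (4 * K / η) * 1 := by linarith
      _ ≤ 3 * Real.exp (4 * K / η) * (X * Z) ^ θ := mul_le_mul_of_nonneg_left hHθ hexp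
      _ ≤ _ := by
          refine mul_le_mul_of_nonneg_right ?_ (by linarith)
          have := abs_nonneg C
          linarith

end Pool.Agent.U927.TP
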