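import Mathlib

set_option autoImplicit false

/-!
A family of rank three with constant exponents.
-/

namespace Pool.Agent.U927.TP

open Finset Polynomial

theorem ex_prod : ∀ i : Fin 3, (![1, -2, 1] : Fin 3 → ℤ) i * (![1, 1, 1] : Fin 3 → ℤ) i *
    ∏ j ∈ univ.erase i, ((![0, 1, 2] : Fin 3 → ℤ) i - (![0, 1, 2] : Fin 3 → ℤ) j) = 2 := by
  decide

theorem ex_mat (q : ℚ) : (Matrix.of fun i j =>
    (((!![1, -1, 0; 0, 2, 0; -1, -1, 0] : Matrix (Fin 3) (Fin 3) ℤ) i j : ℤ) : ℚ) +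
      q * ((((![1, -2, 1] : Fin 3 → ℤ) i : ℤ) : ℚ) * (((![1, 1, 1] : Fin 3 → ℤ) j : ℤ) : ℚ))) =
    !![1 + q, -1 + q, q; -(2 * q), 2 - 2 * q, -(2 * q); -1 + q, -1 + q, q] := by
  ext i j
  fin_cases i <;> fin_cases j <;> simp <;> ring

theorem ex_char (q : ℚ) :
    (!![1 + q, -1 + q, q; -(2 * q), 2 - 2 * q, -(2 * q); -1 + q, -1 + q, q] :
      Matrix (Fin 3) (Fin 3) ℚ).charpoly = X * (X - 1) * (X - 2) := by
  have h2 : (C (2 : ℚ) : ℚ[X]) = 2 := map_ofNat C 2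
  rw [Matrix.charpoly, Matrix.det_fin_three]
  simp [h2]
  ring

theorem ex_char' (q : ℚ) :
    (Matrix.diagonal (fun i => (((![0, 1, 2] : Fin 3 → ℤ) i : ℤ) : ℚ)) +
      !![1 + q, -1 + q, q; -(2 * q), 2 - 2 * q, -(2 * q); -1 + q, -1 + q, q] :
      Matrix (Fin 3) (Fin 3) ℚ).charpoly = (X - 1) * (X - 2) * (X - 3) := by
  have h : (Matrix.diagonal (fun i => (((![0, 1, 2] : Fin 3 → ℤ) i : ℤ) : ℚ)) +
      !![1 + q, -1 + q, q; -(2 * q), 2 - 2 * q, -(2 * q); -1 + q, -1 + q, q] :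
      Matrix (Fin 3) (Fin 3) ℚ) =
      !![1 + q, -1 + q, q; -(2 * q), 3 - 2 * q, -(2 * q); -1 + q, -1 + q, 2 + q] := by
    ext i j
    fin_cases i <;> fin_cases j <;> simp [Matrix.diagonal] <;> ring
  have h2 : (C (2 : ℚ) : ℚ[X]) = 2 := map_ofNat C 2
  have h3 : (C (3 : ℚ) : ℚ[X]) = 3 := map_ofNat C 3
  rw [h, Matrix.charpoly, Matrix.det_fin_three]
  simp [h2, h3]
  ring

theorem ex_ne (q : ℚ) (h0 : q ≠ 0) (h1 : q ≠ 1) (i j : Fin 3) (hij : i ≠ j) :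
    (!![1 + q, -1 + q, q; -(2 * q), 2 - 2 * q, -(2 * q); -1 + q, -1 + q, q] :
      Matrix (Fin 3) (Fin 3) ℚ) i j ≠ 0 := by
  have h2 : -1 + q ≠ 0 := fun h => h1 (by linarith)
  fin_cases i <;> fin_cases j <;> simp_all

end Pool.Agent.U927.TP
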